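import Pool.Agent.FB.U4St

/-!
# FB/U4: alternating runs (ALT)
-/

set_option autoImplicit false
set_option linter.unusedVariables false

open Matrix

namespace Pool.Agent.FB.U4

private theorem ALT_orb (Q : ℝ) (A B : List (ℂ × ℂ × ℂ)) (p : ℂ × ℂ) :
    orb Q (A ++ B) p = orb Q A (orb Q B p) := List.foldr_append

private theorem ALT_KK (Q : ℝ) (B : List (ℂ × ℂ × ℂ)) (p : ℂ × ℂ) :
    ∀ A : List (ℂ × ℂ × ℂ), KK Q (A ++ B) p = KK Q A (orb Q B p) * KK Q B p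
  | [] => by simp [KK]
  | t :: A => by
    show K Q t (orb Q (A ++ B) p) * KK Q (A ++ B) p =
      K Q t (orb Q A (orb Q B p)) * KK Q A (orb Q B p) * KK Q B p
    rw [ALT_KK Q B p A, ALT_orb, Matrix.mul_assoc]

private theorem ALT_near {η κ C Q : ℝ} (hG : Good η κ C Q) {p : ℂ × ℂ} (hp : Near κ Q p) :
    ∀ L : List (ℂ × ℂ × ℂ), (∀ t ∈ L, Adm η t) → Near κ Q (orb Q L p)
  | [], _ => hp
  | t :: L, h => hG.near t _ (h t List.mem_cons_self)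
      (ALT_near hG hp L fun s hs => h s (List.mem_cons_of_mem _ hs))

private theorem ALT_nu {W a : ℝ} (A : Matrix (Fin 2) (Fin 2) ℂ) (hW : 0 < W)
    (h0 : ‖A 0 0‖ + W * ‖A 1 0‖ ≤ a) (h1 : ‖A 0 1‖ + W * ‖A 1 1‖ ≤ a * W) (u : Fin 2 → ℂ) :
    nu W (A *ᵥ u) ≤ a * nu W u := by
  have e0 : (A *ᵥ u) 0 = A 0 0 * u 0 + A 0 1 * u 1 := by
    simp [Matrix.mulVec, dotProduct, Fin.sum_univ_two]
  have e1 : (A *ᵥ u) 1 = A 1 0 * u 0 + A 1 1 * u 1 := by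
    simp [Matrix.mulVec, dotProduct, Fin.sum_univ_two]
  have n0 : ‖(A *ᵥ u) 0‖ ≤ ‖A 0 0‖ * ‖u 0‖ + ‖A 0 1‖ * ‖u 1‖ := by
    rw [e0, ← norm_mul, ← norm_mul]
    exact norm_add_le _ _
  have n1 : ‖(A *ᵥ u) 1‖ ≤ ‖A 1 0‖ * ‖u 0‖ + ‖A 1 1‖ * ‖u 1‖ := by
    rw [e1, ← norm_mul, ← norm_mul]
    exact norm_add_le _ _
  unfold nu
  have k0 := mul_le_mul_of_nonneg_right h0 (norm_nonneg (u 0))
  have k1 := mul_le_mul_of_nonneg_right h1 (norm_nonneg (u 1))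
  have k2 := mul_le_mul_of_nonneg_left n1 hW.le
  calc ‖(A *ᵥ u) 0‖ + W * ‖(A *ᵥ u) 1‖ ≤
      (‖A 0 0‖ * ‖u 0‖ + ‖A 0 1‖ * ‖u 1‖) + W * (‖A 1 0‖ * ‖u 0‖ + ‖A 1 1‖ * ‖u 1‖) :=
        add_le_add n0 k2
    _ = (‖A 0 0‖ + W * ‖A 1 0‖) * ‖u 0‖ + (‖A 0 1‖ + W * ‖A 1 1‖) * ‖u 1‖ := by ring
    _ ≤ a * ‖u 0‖ + a * W * ‖u 1‖ := add_le_add k0 k1
    _ = a * (‖u 0‖ + W * ‖u 1‖) := by ring

/-- the estimates of `St_Run` at `Q` -/
private def ALT_R (η κ C' Q : ℝ) : Prop :=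
  ∀ (s : ℂ × ℂ × ℂ) (P : List (ℂ × ℂ × ℂ)) (p : ℂ × ℂ), (∀ t ∈ s :: P, Adm η t) → Near κ Q p →
    ((∀ t ∈ s :: P, t.2.1 = 1) →
      ‖KK Q (s :: P) p 0 0 - (1 + p.2)‖ ≤ C' * Q ^ 2 ∧ ‖KK Q (s :: P) p 0 1‖ ≤ C' ∧
      ‖KK Q (s :: P) p 1 0‖ ≤ C' * Q ^ 2 ∧ ‖KK Q (s :: P) p 1 1‖ ≤ C' * Q ^ 2 ∧
      ‖(orb Q (s :: P) p).1 - v Q s‖ ≤ C' * Q ^ 2) ∧
    ((∀ t ∈ s :: P, t.1 = 1) →
      ‖KK Q (s :: P) p 0 0 - (1 + p.1)‖ ≤ C' * Q ^ 2 ∧ ‖KK Q (s :: P) p 0 1‖ ≤ C' ∧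
      ‖KK Q (s :: P) p 1 0‖ ≤ C' * Q ^ 2 ∧ ‖KK Q (s :: P) p 1 1‖ ≤ C' * Q ^ 2 ∧
      ‖(orb Q (s :: P) p).2 - v Q s‖ ≤ C' * Q ^ 2)

section

variable {η κ C C' Q : ℝ}

/-- one run: the contraction -/
private theorem ALT_step (hC' : 1 ≤ C') (hQ : 0 < Q) (h500 : 500 * (C' ^ 2 * Q) ≤ 1)
    (A : Matrix (Fin 2) (Fin 2) ℂ) (b : ℂ) (hb : ‖1 + b‖ ≤ 1 - 9 / 20 * Q)
    (h00 : ‖A 0 0 - (1 + b)‖ ≤ C' * Q ^ 2) (h01 : ‖A 0 1‖ ≤ C') (h10 : ‖A 1 0‖ ≤ C' * Q ^ 2)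
    (h11 : ‖A 1 1‖ ≤ C' * Q ^ 2) (u : Fin 2 → ℂ) :
    nu (4 * C') (A *ᵥ u) ≤ (1 - 11 / 25 * Q) * nu (4 * C') u := by
  have hC2 : C' ≤ C' ^ 2 := le_self_pow₀ hC' two_ne_zero
  have hCQ : C' * Q ≤ C' ^ 2 * Q := mul_le_mul_of_nonneg_right hC2 hQ.le
  have hQs : Q ≤ C' ^ 2 * Q := le_mul_of_one_le_left hQ.le (one_le_pow₀ hC')
  have hC0 : 0 < C' := by linarith
  have e2 : C' ^ 2 * Q ^ 2 = (C' ^ 2 * Q) * Q := by ring
  have e3 : C' ^ 2 * Q ^ 2 ≤ 1 / 500 * Q := by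
    rw [e2]
    apply mul_le_mul_of_nonneg_right _ hQ.le
    linarith
  have e1 : C' * Q ^ 2 ≤ C' ^ 2 * Q ^ 2 := mul_le_mul_of_nonneg_right hC2 (sq_nonneg Q)
  apply ALT_nu A (by linarith)
  · have h1 : ‖A 0 0‖ ≤ ‖A 0 0 - (1 + b)‖ + ‖1 + b‖ := by
      have := norm_add_le (A 0 0 - (1 + b)) (1 + b)
      rwa [sub_add_cancel] at this
    have h2 : 4 * C' * ‖A 1 0‖ ≤ 4 * C' * (C' * Q ^ 2) :=
      mul_le_mul_of_nonneg_left h10 (by linarith)
    have h3 : 4 * C' * (C' * Q ^ 2) = 4 * (C' ^ 2 * Q ^ 2) := by ring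
    linarith
  · have h2 : 4 * C' * ‖A 1 1‖ ≤ 4 * C' * (C' * Q ^ 2) :=
      mul_le_mul_of_nonneg_left h11 (by linarith)
    have h3 : 4 * C' * (C' * Q ^ 2) = 4 * (C' ^ 2 * Q ^ 2) := by ring
    have h4 : (1 - 11 / 25 * Q) * (4 * C') = 4 * C' - 44 / 25 * (C' * Q) := by ring
    rw [h4]
    nlinarith

private theorem ALT_wall (hG : Good η κ C Q) (hC' : 1 ≤ C') (hQ : 0 < Q)
    (hCC : 20 * ((C + C') * Q) ≤ 1) {s : ℂ × ℂ × ℂ} (hs : Adm η s) {b : ℂ}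
    (hb : ‖b - v Q s‖ ≤ C' * Q ^ 2) : ‖1 + b‖ ≤ 1 - 9 / 20 * Q := by
  have h1 := hG.v_wall s hs
  have h2 : ‖1 + b‖ ≤ ‖b - v Q s‖ + ‖1 + v Q s‖ := by
    have := norm_add_le (b - v Q s) (1 + v Q s)
    have e : b - v Q s + (1 + v Q s) = 1 + b := by ring
    rwa [e] at this
  have h3 : C * Q ^ 2 + C' * Q ^ 2 = ((C + C') * Q) * Q := by ring
  have h4 : ((C + C') * Q) * Q ≤ 1 / 20 * Q := mul_le_mul_of_nonneg_right (by linarith) hQ.le
  linarith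

/-- a run without `σ₁`, first part -/
private theorem ALT_B (hG : Good η κ C Q) (hR : ALT_R η κ C' Q) (hC' : 1 ≤ C') (hQ : 0 < Q)
    (hCC : 20 * ((C + C') * Q) ≤ 1) (h500 : 500 * (C' ^ 2 * Q) ≤ 1) {L : List (ℂ × ℂ × ℂ)}
    (hL : L ≠ []) (hA : ∀ t ∈ L, Adm η t) (h1 : ∀ t ∈ L, t.1 = 1) {p : ℂ × ℂ} (hp : Near κ Q p) :
    ‖1 + (orb Q L p).2‖ ≤ 1 - 9 / 20 * Q ∧ (‖1 + p.1‖ ≤ 1 - 9 / 20 * Q →
      ∀ u, nu (4 * C') (KK Q L p *ᵥ u) ≤ (1 - 11 / 25 * Q) * nu (4 * C') u) := by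
  obtain ⟨s, P, rfl⟩ := List.exists_cons_of_ne_nil hL
  obtain ⟨h00, h01, h10, h11, ho⟩ := (hR s P p hA hp).2 h1
  exact ⟨ALT_wall hG hC' hQ hCC (hA s List.mem_cons_self) ho, fun hb u =>
    ALT_step hC' hQ h500 _ _ hb h00 h01 h10 h11 u⟩

/-- a run without `σ₃` -/
private theorem ALT_A (hG : Good η κ C Q) (hR : ALT_R η κ C' Q) (hC' : 1 ≤ C') (hQ : 0 < Q)
    (hCC : 20 * ((C + C') * Q) ≤ 1) (h500 : 500 * (C' ^ 2 * Q) ≤ 1) {L : List (ℂ × ℂ × ℂ)}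
    (hL : L ≠ []) (hA : ∀ t ∈ L, Adm η t) (h1 : ∀ t ∈ L, t.2.1 = 1) {p : ℂ × ℂ}
    (hp : Near κ Q p) :
    ‖1 + (orb Q L p).1‖ ≤ 1 - 9 / 20 * Q ∧ (‖1 + p.2‖ ≤ 1 - 9 / 20 * Q →
      ∀ u, nu (4 * C') (KK Q L p *ᵥ u) ≤ (1 - 11 / 25 * Q) * nu (4 * C') u) ∧
      ‖KK Q L p 1 0‖ ≤ C' * Q ^ 2 ∧ ‖KK Q L p 1 1‖ ≤ C' * Q ^ 2 := by
  obtain ⟨s, P, rfl⟩ := List.exists_cons_of_ne_nil hL
  obtain ⟨h00, h01, h10, h11, ho⟩ := (hR s P p hA hp).1 h1
  exact ⟨ALT_wall hG hC' hQ hCC (hA s List.mem_cons_self) ho, fun hb u =>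
    ALT_step hC' hQ h500 _ _ hb h00 h01 h10 h11 u, h10, h11⟩

private theorem ALT_nu_nonneg {W : ℝ} (hW : 0 ≤ W) (u : Fin 2 → ℂ) : 0 ≤ nu W u :=
  add_nonneg (norm_nonneg _) (mul_nonneg hW (norm_nonneg _))

/-- a list of pairs of runs -/
private theorem ALT_list (hG : Good η κ C Q) (hR : ALT_R η κ C' Q) (hC' : 1 ≤ C') (hQ : 0 < Q)
    (hCC : 20 * ((C + C') * Q) ≤ 1) (h500 : 500 * (C' ^ 2 * Q) ≤ 1) {p : ℂ × ℂ}
    (hp : Near κ Q p) (hp1 : ‖1 + p.1‖ ≤ 1 - 9 / 20 * Q) :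
    ∀ R : List (List (ℂ × ℂ × ℂ) × List (ℂ × ℂ × ℂ)), (∀ q ∈ R, Runs q) →
      (∀ q ∈ R, ∀ t ∈ q.1 ++ q.2, Adm η t) →
      ‖1 + (orb Q (R.map fun q => q.1 ++ q.2).flatten p).1‖ ≤ 1 - 9 / 20 * Q ∧
      Near κ Q (orb Q (R.map fun q => q.1 ++ q.2).flatten p) ∧
      ∀ u, nu (4 * C') (KK Q (R.map fun q => q.1 ++ q.2).flatten p *ᵥ u) ≤
        (1 - 11 / 25 * Q) ^ (2 * R.length) * nu (4 * C') u
  | [], _, _ => by
    refine ⟨hp1, hp, fun u => ?_⟩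
    simp [KK]
  | q :: R, h1, h2 => by
    obtain ⟨i1, i2, i3⟩ := ALT_list hG hR hC' hQ hCC h500 hp hp1 R
      (fun r hr => h1 r (List.mem_cons_of_mem _ hr)) (fun r hr => h2 r (List.mem_cons_of_mem _ hr))
    have hq := h1 q List.mem_cons_self
    have hqa := h2 q List.mem_cons_self
    set F := (R.map fun q => q.1 ++ q.2).flatten with hF
    have eF : ((q :: R).map fun q => q.1 ++ q.2).flatten = q.1 ++ (q.2 ++ F) := by
      rw [List.map_cons, List.flatten_cons, List.append_assoc]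
    rw [eF, ALT_orb, ALT_KK, ALT_orb, ALT_KK]
    obtain ⟨b1, b2⟩ := ALT_B hG hR hC' hQ hCC h500 hq.2.1
      (fun t ht => hqa t (List.mem_append_right _ ht)) hq.2.2.2 i2
    have n2 : Near κ Q (orb Q q.2 (orb Q F p)) := ALT_near hG i2 q.2
      fun t ht => hqa t (List.mem_append_right _ ht)
    obtain ⟨a1, a2, -, -⟩ := ALT_A hG hR hC' hQ hCC h500 hq.1
      (fun t ht => hqa t (List.mem_append_left _ ht)) hq.2.2.1 n2
    refine ⟨a1, ALT_near hG n2 q.1 fun t ht => hqa t (List.mem_append_left _ ht), fun u => ?_⟩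
    have hf : 0 ≤ 1 - 11 / 25 * Q := by
      have : Q ≤ C' ^ 2 * Q := le_mul_of_one_le_left hQ.le (one_le_pow₀ hC')
      linarith
    have e : (1 - 11 / 25 * Q) ^ (2 * (q :: R).length) * nu (4 * C') u =
        (1 - 11 / 25 * Q) * ((1 - 11 / 25 * Q) * ((1 - 11 / 25 * Q) ^ (2 * R.length) *
          nu (4 * C') u)) := by
      rw [List.length_cons, show 2 * (R.length + 1) = 2 * R.length + 1 + 1 by ring, pow_succ,
        pow_succ]
      ring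
    rw [e, ← mulVec_mulVec, ← mulVec_mulVec]
    refine (a2 b1 _).trans (mul_le_mul_of_nonneg_left ?_ hf)
    refine (b2 i1 _).trans (mul_le_mul_of_nonneg_left ?_ hf)
    exact i3 u

end

/-- **Module U4_ALT** from `St_Run` -/
theorem Alt_of (h : St_Run) : St_Alt := by
  intro η κ C hη
  obtain ⟨C', Q₂, hQ₂, hC', hR⟩ := h η κ C hη
  set D : ℝ := |C| + C' with hD
  have hD1 : 1 ≤ D := by
    have := abs_nonneg C
    linarith
  have hD2 : 0 < D ^ 2 := by positivity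
  refine ⟨max 1 (8 / η), min Q₂ (min (1 / (500 * D ^ 2)) (η / (100 * D ^ 2))),
    lt_min hQ₂ (lt_min (by positivity) (by positivity)), le_max_left _ _, ?_⟩
  intro Q hQlt hG
  have hQ := hG.pos
  have hQ2 : Q < Q₂ := hQlt.trans_le (min_le_left _ _)
  have hQa : 500 * (D ^ 2 * Q) < 1 := by
    have h1 : Q < 1 / (500 * D ^ 2) :=
      hQlt.trans_le ((min_le_right _ _).trans (min_le_left _ _))
    rw [lt_div_iff₀ (by positivity)] at h1
    linarith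
  have hQb : 100 * (D ^ 2 * Q) < η := by
    have h1 : Q < η / (100 * D ^ 2) :=
      hQlt.trans_le ((min_le_right _ _).trans (min_le_right _ _))
    rw [lt_div_iff₀ (by positivity)] at h1
    linarith
  have hR' : ALT_R η κ C' Q := hR Q hQ2 hG
  have hCD : C ≤ D := by
    have := le_abs_self C
    linarith
  have hC1 := hG.one_le
  have hC'D : C' ≤ D := by
    have := abs_nonneg C
    linarith
  have hCC2 : C' ^ 2 ≤ D ^ 2 := pow_le_pow_left₀ (by linarith) hC'D 2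
  have hCC3 : C ^ 2 ≤ D ^ 2 := pow_le_pow_left₀ (by linarith) hCD 2
  have hDD : D ≤ D ^ 2 := by nlinarith
  have h500 : 500 * (C' ^ 2 * Q) ≤ 1 := by
    have := mul_le_mul_of_nonneg_right hCC2 hQ.le
    linarith
  have hCC : 20 * ((C + C') * Q) ≤ 1 := by
    have h1 : C + C' ≤ 2 * D ^ 2 := by linarith
    have := mul_le_mul_of_nonneg_right h1 hQ.le
    nlinarith
  have hQ500 : 500 * Q ≤ 1 := by nlinarith
  have hCQ2 : C' ^ 2 * Q ^ 2 ≤ 1 / 500 * Q := by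
    have : C' ^ 2 * Q ^ 2 = (C' ^ 2 * Q) * Q := by ring
    rw [this]
    apply mul_le_mul_of_nonneg_right _ hQ.le
    linarith
  have hf0 : 0 ≤ 1 - 11 / 25 * Q := by linarith
  have hf1 : 1 - 11 / 25 * Q ≤ 1 := by linarith
  refine ⟨?_, ?_⟩
  · intro R p hlen hrun hadm hp hfix
    obtain ⟨q, R', rfl⟩ : ∃ q R', R = q :: R' := by
      cases R with
      | nil => simp at hlen
      | cons q R' => exact ⟨q, R', rfl⟩
    have hlen' : 1 ≤ R'.length := by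
      rw [List.length_cons] at hlen
      omega
    have hq := hrun q List.mem_cons_self
    have hqa := hadm q List.mem_cons_self
    set F := (R'.map fun q => q.1 ++ q.2).flatten with hF
    have eF : ((q :: R').map fun q => q.1 ++ q.2).flatten = q.1 ++ (q.2 ++ F) := by
      rw [List.map_cons, List.flatten_cons, List.append_assoc]
    -- the fixed point
    have hadF : ∀ t ∈ q.2 ++ F, Adm η t := by
      intro t ht
      rcases List.mem_append.1 ht with ht | ht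
      · exact hqa t (List.mem_append_right _ ht)
      · rw [hF, List.mem_flatten] at ht
        obtain ⟨l, hl, htl⟩ := ht
        rw [List.mem_map] at hl
        obtain ⟨r, hr, rfl⟩ := hl
        exact hadm r (List.mem_cons_of_mem _ hr) t htl
    have n1 : Near κ Q (orb Q (q.2 ++ F) p) := ALT_near hG hp _ hadF
    obtain ⟨a1, a2, a3, a4⟩ := ALT_A hG hR' hC' hQ hCC h500 hq.1
      (fun t ht => hqa t (List.mem_append_left _ ht)) hq.2.2.1 n1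
    have hp1 : ‖1 + p.1‖ ≤ 1 - 9 / 20 * Q := by
      have h1 : orb Q q.1 (orb Q (q.2 ++ F) p) = p := by
        rw [← ALT_orb, ← eF]
        exact hfix
      rwa [h1] at a1
    obtain ⟨-, -, l3⟩ := ALT_list hG hR' hC' hQ hCC h500 hp hp1 (q :: R') hrun hadm
    obtain ⟨m1, m2, m3⟩ := ALT_list hG hR' hC' hQ hCC h500 hp hp1 R'
      (fun r hr => hrun r (List.mem_cons_of_mem _ hr))
      (fun r hr => hadm r (List.mem_cons_of_mem _ hr))
    obtain ⟨b1, b2⟩ := ALT_B hG hR' hC' hQ hCC h500 hq.2.1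
      (fun t ht => hqa t (List.mem_append_right _ ht)) hq.2.2.2 m2
    set M := KK Q ((q :: R').map fun q => q.1 ++ q.2).flatten p with hM
    -- the first entry
    have t0 : ‖M 0 0‖ ≤ 1 - 17 / 10 * Q := by
      have h1 := l3 ![1, 0]
      have h2 : nu (4 * C') (![1, 0] : Fin 2 → ℂ) = 1 := by simp [nu]
      rw [h2, mul_one] at h1
      have h3 : ‖M 0 0‖ ≤ nu (4 * C') (M *ᵥ ![1, 0]) := by
        have e0 : (M *ᵥ ![1, 0]) 0 = M 0 0 := by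
          simp [Matrix.mulVec, dotProduct, Fin.sum_univ_two]
        unfold nu
        rw [e0]
        have := mul_nonneg (by linarith : (0 : ℝ) ≤ 4 * C') (norm_nonneg ((M *ᵥ ![1, 0]) 1))
        linarith
      have h4 : (1 - 11 / 25 * Q) ^ (2 * (q :: R').length) ≤ (1 - 11 / 25 * Q) ^ 4 := by
        apply pow_le_pow_of_le_one hf0 hf1
        rw [List.length_cons]
        omega
      have h5 : (1 - 11 / 25 * Q) ^ 4 ≤ 1 - 17 / 10 * Q := by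
        have h6 : (1 - 11 / 25 * Q) ^ 2 ≤ 1 - 87 / 100 * Q := by nlinarith
        have h7 : (1 - 11 / 25 * Q) ^ 4 = ((1 - 11 / 25 * Q) ^ 2) ^ 2 := by ring
        rw [h7]
        have h8 : ((1 - 11 / 25 * Q) ^ 2) ^ 2 ≤ (1 - 87 / 100 * Q) ^ 2 :=
          pow_le_pow_left₀ (sq_nonneg _) h6 2
        nlinarith
      exact h3.trans (h1.trans (h4.trans h5))
    -- the second entry
    have t1 : ‖M 1 1‖ ≤ 4 * (C' ^ 2 * Q ^ 2) := by
      have eM : M = KK Q q.1 (orb Q (q.2 ++ F) p) * KK Q (q.2 ++ F) p := by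
        rw [hM, eF, ALT_KK]
      set A := KK Q q.1 (orb Q (q.2 ++ F) p) with hA
      set M' := KK Q (q.2 ++ F) p with hM'
      have h1 : M 1 1 = A 1 0 * M' 0 1 + A 1 1 * M' 1 1 := by
        rw [eM, Matrix.mul_apply, Fin.sum_univ_two]
      have h2 : ‖M' 0 1‖ + ‖M' 1 1‖ ≤ 4 * C' := by
        have h3 : nu (4 * C') (M' *ᵥ ![0, 1]) ≤ nu (4 * C') (![0, 1] : Fin 2 → ℂ) := by
          rw [hM', ALT_KK, ← mulVec_mulVec]
          have k1 := b2 m1 (KK Q F p *ᵥ ![0, 1])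
          have k2 := m3 ![0, 1]
          have k3 : (1 - 11 / 25 * Q) ^ (2 * R'.length) ≤ 1 := pow_le_one₀ hf0 hf1
          have k4 := ALT_nu_nonneg (by linarith : (0 : ℝ) ≤ 4 * C') (![0, 1] : Fin 2 → ℂ)
          have k5 := ALT_nu_nonneg (by linarith : (0 : ℝ) ≤ 4 * C') (KK Q F p *ᵥ ![0, 1])
          calc _ ≤ (1 - 11 / 25 * Q) * nu (4 * C') (KK Q F p *ᵥ ![0, 1]) := k1
            _ ≤ 1 * nu (4 * C') (KK Q F p *ᵥ ![0, 1]) := mul_le_mul_of_nonneg_right hf1 k5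
            _ ≤ 1 * ((1 - 11 / 25 * Q) ^ (2 * R'.length) * nu (4 * C') ![0, 1]) :=
              mul_le_mul_of_nonneg_left k2 zero_le_one
            _ ≤ 1 * (1 * nu (4 * C') ![0, 1]) :=
              mul_le_mul_of_nonneg_left (mul_le_mul_of_nonneg_right k3 k4) zero_le_one
            _ = _ := by ring
        have h4 : nu (4 * C') (![0, 1] : Fin 2 → ℂ) = 4 * C' := by simp [nu]
        rw [h4] at h3
        have e0 : (M' *ᵥ ![0, 1]) 0 = M' 0 1 := by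
          simp [Matrix.mulVec, dotProduct, Fin.sum_univ_two]
        have e1 : (M' *ᵥ ![0, 1]) 1 = M' 1 1 := by
          simp [Matrix.mulVec, dotProduct, Fin.sum_univ_two]
        unfold nu at h3
        rw [e0, e1] at h3
        have h5 : ‖M' 1 1‖ ≤ 4 * C' * ‖M' 1 1‖ := by
          nlinarith [norm_nonneg (M' 1 1)]
        linarith
      rw [h1]
      calc ‖A 1 0 * M' 0 1 + A 1 1 * M' 1 1‖ ≤ ‖A 1 0‖ * ‖M' 0 1‖ + ‖A 1 1‖ * ‖M' 1 1‖ := by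
            rw [← norm_mul, ← norm_mul]
            exact norm_add_le _ _
        _ ≤ C' * Q ^ 2 * ‖M' 0 1‖ + C' * Q ^ 2 * ‖M' 1 1‖ :=
            add_le_add (mul_le_mul_of_nonneg_right a3 (norm_nonneg _))
              (mul_le_mul_of_nonneg_right a4 (norm_nonneg _))
        _ = C' * Q ^ 2 * (‖M' 0 1‖ + ‖M' 1 1‖) := by ring
        _ ≤ C' * Q ^ 2 * (4 * C') := mul_le_mul_of_nonneg_left h2 (by positivity)
        _ = 4 * (C' ^ 2 * Q ^ 2) := by ring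
    rw [trace_fin_two]
    have := norm_add_le (M 0 0) (M 1 1)
    linarith
  · intro s t P R p hruns hadm hp hfix hz
    obtain ⟨-, -, hr1, hr2⟩ := hruns
    have hadA : ∀ u ∈ s :: P, Adm η u := fun u hu => hadm u (List.mem_append_left _ hu)
    have hadB : ∀ u ∈ t :: R, Adm η u := fun u hu => hadm u (List.mem_append_right _ hu)
    have hs := hadA s List.mem_cons_self
    have ht := hadB t List.mem_cons_self
    obtain ⟨b00, b01, b10, b11, bo⟩ := (hR' t R p hadB hp).2 hr2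
    set p1 := orb Q (t :: R) p with hp1
    have n1 : Near κ Q p1 := ALT_near hG hp _ hadB
    obtain ⟨a00, a01, a10, a11, ao⟩ := (hR' s P p1 hadA n1).1 hr1
    have hfix' : orb Q (s :: P) p1 = p := by
      rw [hp1, ← ALT_orb]
      exact hfix
    rw [hfix'] at ao
    rw [ALT_KK, ← hp1]
    set A := KK Q (s :: P) p1 with hA
    set B := KK Q (t :: R) p with hB
    -- the first entries
    have ea : ‖A 0 0 - (1 + v Q t)‖ ≤ 2 * (C' * Q ^ 2) := by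
      have e : A 0 0 - (1 + v Q t) = (A 0 0 - (1 + p1.2)) + (p1.2 - v Q t) := by ring
      rw [e]
      refine (norm_add_le _ _).trans ?_
      linarith
    have eb : ‖B 0 0 - (1 + v Q s)‖ ≤ 2 * (C' * Q ^ 2) := by
      have e : B 0 0 - (1 + v Q s) = (B 0 0 - (1 + p.1)) + (p.1 - v Q s) := by ring
      rw [e]
      refine (norm_add_le _ _).trans ?_
      linarith
    have hws : ‖1 + v Q s‖ ≤ 1 := by
      have h1 := hG.v_wall s hs
      have h2 : C * Q ^ 2 = (C * Q) * Q := by ring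
      have h3 : C * Q ≤ 1 / 2 := by
        have k1 : 0 ≤ C' * Q := by positivity
        have k2 := add_mul C C' Q
        linarith
      have h4 : (C * Q) * Q ≤ 1 / 2 * Q := mul_le_mul_of_nonneg_right h3 hQ.le
      linarith
    have hwt : ‖1 + v Q t‖ ≤ 1 := by
      have h1 := hG.v_wall t ht
      have h2 : C * Q ^ 2 = (C * Q) * Q := by ring
      have h3 : C * Q ≤ 1 / 2 := by
        have k1 : 0 ≤ C' * Q := by positivity
        have k2 := add_mul C C' Q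
        linarith
      have h4 : (C * Q) * Q ≤ 1 / 2 * Q := mul_le_mul_of_nonneg_right h3 hQ.le
      linarith
    have hC'Q : C' * Q ^ 2 ≤ 1 / 500 := by
      have h1 : C' ≤ C' ^ 2 := le_self_pow₀ hC' two_ne_zero
      have h2 : C' * Q ^ 2 ≤ C' ^ 2 * Q ^ 2 := mul_le_mul_of_nonneg_right h1 (sq_nonneg Q)
      linarith
    have hC'sq : C' * Q ^ 2 ≤ C' ^ 2 * Q ^ 2 := by
      have h1 : C' ≤ C' ^ 2 := le_self_pow₀ hC' two_ne_zero
      exact mul_le_mul_of_nonneg_right h1 (sq_nonneg Q)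
    have hnn : 0 ≤ C' * Q ^ 2 := by positivity
    -- the error
    have hE : ‖(A * B).trace - (1 + v Q t) * (1 + v Q s)‖ ≤ 11 * (C' ^ 2 * Q ^ 2) := by
      have e : (A * B).trace - (1 + v Q t) * (1 + v Q s) =
          (A 0 0 - (1 + v Q t)) * (1 + v Q s) + (1 + v Q t) * (B 0 0 - (1 + v Q s)) +
          (A 0 0 - (1 + v Q t)) * (B 0 0 - (1 + v Q s)) + A 0 1 * B 1 0 + A 1 0 * B 0 1 +
          A 1 1 * B 1 1 := by
        rw [trace_fin_two, Matrix.mul_apply, Matrix.mul_apply, Fin.sum_univ_two, Fin.sum_univ_two]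
        ring
      have f1 : ‖(A 0 0 - (1 + v Q t)) * (1 + v Q s)‖ ≤ 2 * (C' * Q ^ 2) := by
        rw [norm_mul]
        calc ‖A 0 0 - (1 + v Q t)‖ * ‖1 + v Q s‖ ≤ (2 * (C' * Q ^ 2)) * 1 :=
              mul_le_mul ea hws (norm_nonneg _) (by positivity)
          _ = _ := by ring
      have f2 : ‖(1 + v Q t) * (B 0 0 - (1 + v Q s))‖ ≤ 2 * (C' * Q ^ 2) := by
        rw [norm_mul]
        calc ‖1 + v Q t‖ * ‖B 0 0 - (1 + v Q s)‖ ≤ 1 * (2 * (C' * Q ^ 2)) :=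
              mul_le_mul hwt eb (norm_nonneg _) (by positivity)
          _ = _ := by ring
      have f3 : ‖(A 0 0 - (1 + v Q t)) * (B 0 0 - (1 + v Q s))‖ ≤ 2 * (C' * Q ^ 2) := by
        rw [norm_mul]
        have : ‖B 0 0 - (1 + v Q s)‖ ≤ 1 := by linarith
        calc ‖A 0 0 - (1 + v Q t)‖ * ‖B 0 0 - (1 + v Q s)‖ ≤ (2 * (C' * Q ^ 2)) * 1 :=
              mul_le_mul ea this (norm_nonneg _) (by positivity)
          _ = _ := by ring
      have f4 : ‖A 0 1 * B 1 0‖ ≤ C' ^ 2 * Q ^ 2 := by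
        rw [norm_mul]
        calc ‖A 0 1‖ * ‖B 1 0‖ ≤ C' * (C' * Q ^ 2) :=
              mul_le_mul a01 b10 (norm_nonneg _) (by linarith)
          _ = _ := by ring
      have f5 : ‖A 1 0 * B 0 1‖ ≤ C' ^ 2 * Q ^ 2 := by
        rw [norm_mul]
        calc ‖A 1 0‖ * ‖B 0 1‖ ≤ (C' * Q ^ 2) * C' :=
              mul_le_mul a10 b01 (norm_nonneg _) hnn
          _ = _ := by ring
      have f6 : ‖A 1 1 * B 1 1‖ ≤ C' * Q ^ 2 := by
        rw [norm_mul]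
        have : ‖B 1 1‖ ≤ 1 := by linarith
        calc ‖A 1 1‖ * ‖B 1 1‖ ≤ (C' * Q ^ 2) * 1 := mul_le_mul a11 this (norm_nonneg _) hnn
          _ = _ := by ring
      rw [e]
      have g1 := norm_add_le ((A 0 0 - (1 + v Q t)) * (1 + v Q s) +
        (1 + v Q t) * (B 0 0 - (1 + v Q s)) +
        (A 0 0 - (1 + v Q t)) * (B 0 0 - (1 + v Q s)) + A 0 1 * B 1 0 + A 1 0 * B 0 1)
        (A 1 1 * B 1 1)
      have g2 := norm_add_le ((A 0 0 - (1 + v Q t)) * (1 + v Q s) +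
        (1 + v Q t) * (B 0 0 - (1 + v Q s)) +
        (A 0 0 - (1 + v Q t)) * (B 0 0 - (1 + v Q s)) + A 0 1 * B 1 0) (A 1 0 * B 0 1)
      have g3 := norm_add_le ((A 0 0 - (1 + v Q t)) * (1 + v Q s) +
        (1 + v Q t) * (B 0 0 - (1 + v Q s)) +
        (A 0 0 - (1 + v Q t)) * (B 0 0 - (1 + v Q s))) (A 0 1 * B 1 0)
      have g4 := norm_add_le ((A 0 0 - (1 + v Q t)) * (1 + v Q s) +
        (1 + v Q t) * (B 0 0 - (1 + v Q s))) ((A 0 0 - (1 + v Q t)) * (B 0 0 - (1 + v Q s)))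
      have g5 := norm_add_le ((A 0 0 - (1 + v Q t)) * (1 + v Q s))
        ((1 + v Q t) * (B 0 0 - (1 + v Q s)))
      linarith
    -- the main term
    have hzs : s.2.2 - 1 ≠ 0 := by
      intro h0
      have := hs.2.2.2.2.2.2
      rw [h0, norm_zero] at this
      linarith
    have hzt : t.2.2 - 1 ≠ 0 := by
      intro h0
      have := ht.2.2.2.2.2.2
      rw [h0, norm_zero] at this
      linarith
    have hmain : (Q : ℂ) + v Q s + v Q t =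
        Q * ((s.2.2 * t.2.2 - 1) / ((s.2.2 - 1) * (t.2.2 - 1))) := by
      unfold v
      field_simp
      ring
    have hlow : Q * (η / 4) ≤ ‖(Q : ℂ) + v Q s + v Q t‖ := by
      rw [hmain, norm_mul, norm_div, norm_mul, Complex.norm_real, Real.norm_of_nonneg hQ.le]
      apply mul_le_mul_of_nonneg_left _ hQ.le
      have k1 : ‖s.2.2 - 1‖ ≤ 2 := by
        refine (norm_sub_le _ _).trans ?_
        rw [hs.2.2.1, norm_one]
        norm_num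
      have k2 : ‖t.2.2 - 1‖ ≤ 2 := by
        refine (norm_sub_le _ _).trans ?_
        rw [ht.2.2.1, norm_one]
        norm_num
      have k3 : 0 < ‖s.2.2 - 1‖ := norm_pos_iff.2 hzs
      have k4 : 0 < ‖t.2.2 - 1‖ := norm_pos_iff.2 hzt
      rw [le_div_iff₀ (mul_pos k3 k4)]
      have k5 : ‖s.2.2 - 1‖ * ‖t.2.2 - 1‖ ≤ 2 * 2 := mul_le_mul k1 k2 k4.le (by norm_num)
      calc η / 4 * (‖s.2.2 - 1‖ * ‖t.2.2 - 1‖) ≤ η / 4 * (2 * 2) :=
            mul_le_mul_of_nonneg_left k5 (by linarith)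
        _ = η := by ring
        _ ≤ _ := hz
    have hvv : ‖v Q s * v Q t‖ ≤ C ^ 2 * Q ^ 2 := by
      rw [norm_mul]
      calc ‖v Q s‖ * ‖v Q t‖ ≤ (C * Q) * (C * Q) :=
            mul_le_mul (hG.v_le s hs) (hG.v_le t ht) (norm_nonneg _) (by positivity)
        _ = _ := by ring
    have hfin : Q * (η / 4) ≤ ‖(1 - Q : ℂ) - (A * B).trace‖ + C ^ 2 * Q ^ 2 +
        11 * (C' ^ 2 * Q ^ 2) := by
      have e : (Q : ℂ) + v Q s + v Q t = -((1 - Q : ℂ) - (A * B).trace) - v Q s * v Q t -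
          ((A * B).trace - (1 + v Q t) * (1 + v Q s)) := by ring
      have g1 := norm_sub_le (-((1 - Q : ℂ) - (A * B).trace) - v Q s * v Q t)
        ((A * B).trace - (1 + v Q t) * (1 + v Q s))
      have g2 := norm_sub_le (-((1 - Q : ℂ) - (A * B).trace)) (v Q s * v Q t)
      rw [norm_neg] at g2
      rw [e] at hlow
      linarith
    have hsm : C ^ 2 * Q ^ 2 + 11 * (C' ^ 2 * Q ^ 2) ≤ 12 / 100 * (η * Q) := by
      have h1 : C ^ 2 * Q ^ 2 ≤ D ^ 2 * Q ^ 2 := mul_le_mul_of_nonneg_right hCC3 (sq_nonneg Q)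
      have h2 : C' ^ 2 * Q ^ 2 ≤ D ^ 2 * Q ^ 2 := mul_le_mul_of_nonneg_right hCC2 (sq_nonneg Q)
      have h3 : D ^ 2 * Q ^ 2 = (D ^ 2 * Q) * Q := by ring
      have h4 : (D ^ 2 * Q) * Q ≤ (η / 100) * Q :=
        mul_le_mul_of_nonneg_right (by linarith) hQ.le
      linarith
    have hinv : (max 1 (8 / η))⁻¹ ≤ η / 8 := by
      rw [inv_le_comm₀ (by positivity) (by positivity), inv_div]
      exact le_max_right _ _
    calc (max 1 (8 / η))⁻¹ * Q ≤ η / 8 * Q := mul_le_mul_of_nonneg_right hinv hQ.le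
      _ ≤ _ := by nlinarith

end Pool.Agent.FB.U4
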