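import Pool.Agent.FB.U4.ALG

/-!
# FB/U4/PROD: the products at a fixed point of the orbit map
-/

set_option autoImplicit false

open Matrix

namespace Pool.Agent.FB.U4

theorem PROD_mem {κ Q : ℝ} {p : ℂ × ℂ} :
    Near κ Q p ↔ p ∈ Metric.closedBall (0 : ℂ × ℂ) (κ * Q) := by
  rw [mem_closedBall_zero_iff, Prod.norm_def, max_le_iff]
  rfl

theorem PROD_near {η κ C Q : ℝ} (G : Good η κ C Q) (p : ℂ × ℂ) (hp : Near κ Q p) :
    ∀ L : List (ℂ × ℂ × ℂ), (∀ t ∈ L, Adm η t) → Near κ Q (orb Q L p) := by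
  intro L
  induction L with
  | nil => intro _; exact hp
  | cons t L ih =>
    intro h
    exact G.near t _ (h t (by simp)) (ih fun s hs => h s (by simp [hs]))

theorem PROD_lip1 {η κ C Q : ℝ} (G : Good η κ C Q) (p q : ℂ × ℂ) (hp : Near κ Q p)
    (hq : Near κ Q q) :
    ∀ L : List (ℂ × ℂ × ℂ), (∀ t ∈ L, Adm η t) → dist (orb Q L p) (orb Q L q) ≤ dist p q := by
  intro L
  induction L with
  | nil => intro _; exact le_rfl
  | cons t L ih =>
    intro h
    have h' : ∀ s ∈ L, Adm η s := fun s hs => h s (by simp [hs])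
    have h1 := G.lip t _ _ (h t (by simp)) (PROD_near G p hp L h') (PROD_near G q hq L h')
    have h2 := ih h'
    have h3 : dist (orb Q (t :: L) p) (orb Q (t :: L) q) =
      dist (step Q t (orb Q L p)) (step Q t (orb Q L q)) := rfl
    have h4 : 0 ≤ dist (orb Q L p) (orb Q L q) := dist_nonneg
    rw [h3]
    linarith

theorem PROD_lip {η κ C Q : ℝ} (G : Good η κ C Q) (p q : ℂ × ℂ) (hp : Near κ Q p)
    (hq : Near κ Q q) (L : List (ℂ × ℂ × ℂ)) (hL : L ≠ []) (h : ∀ t ∈ L, Adm η t) :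
    dist (orb Q L p) (orb Q L q) ≤ dist p q / 2 := by
  cases L with
  | nil => exact absurd rfl hL
  | cons t L =>
    have h' : ∀ s ∈ L, Adm η s := fun s hs => h s (by simp [hs])
    have h1 := G.lip t _ _ (h t (by simp)) (PROD_near G p hp L h') (PROD_near G q hq L h')
    have h2 := PROD_lip1 G p q hp hq L h'
    have h3 : dist (orb Q (t :: L) p) (orb Q (t :: L) q) =
      dist (step Q t (orb Q L p)) (step Q t (orb Q L q)) := rfl
    rw [h3]
    linarith

theorem PROD_fix {η κ C Q : ℝ} (G : Good η κ C Q) (L : List (ℂ × ℂ × ℂ)) (hL : L ≠ [])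
    (h : ∀ t ∈ L, Adm η t) : ∃ p, Near κ Q p ∧ orb Q L p = p := by
  have hc : IsComplete (Metric.closedBall (0 : ℂ × ℂ) (κ * Q)) :=
    Metric.isClosed_closedBall.isComplete
  have hm : Set.MapsTo (orb Q L) (Metric.closedBall (0 : ℂ × ℂ) (κ * Q))
      (Metric.closedBall (0 : ℂ × ℂ) (κ * Q)) :=
    fun p hp => PROD_mem.1 (PROD_near G p (PROD_mem.2 hp) L h)
  have hk : ContractingWith (1 / 2) (hm.restrict (orb Q L) _ _) := by
    refine ⟨?_, LipschitzWith.of_dist_le_mul fun p q => ?_⟩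
    · rw [← NNReal.coe_lt_coe]
      norm_num
    · have h1 := PROD_lip G p.1 q.1 (PROD_mem.2 p.2) (PROD_mem.2 q.2) L hL h
      rw [Subtype.dist_eq, Subtype.dist_eq]
      have h2 : (((1 / 2 : NNReal)) : ℝ) = 1 / 2 := by norm_num
      rw [h2]
      have h3 : dist (orb Q L p.1) (orb Q L q.1) ≤ 1 / 2 * dist p.1 q.1 := by linarith
      exact h3
  have h0 : (0 : ℂ × ℂ) ∈ Metric.closedBall (0 : ℂ × ℂ) (κ * Q) :=
    Metric.mem_closedBall_self (mul_nonneg G.κ_pos.le G.pos.le)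
  obtain ⟨p, hp, hf, -⟩ := hk.exists_fixedPoint' hc hm h0 (edist_ne_top _ _)
  exact ⟨p, PROD_mem.2 hp, hf⟩

theorem PROD_alg {η κ C Q : ℝ} (G : Good η κ C Q) {t : ℂ × ℂ × ℂ} (ht : Adm η t) {p : ℂ × ℂ}
    (hp : Near κ Q p) :
    T3 Q t *ᵥ ![1 + p.1, 1 + p.2, 1] =
      (N Q t p / v Q t) • ![1 + (step Q t p).1, 1 + (step Q t p).2, 1] ∧
    T2 Q t * !![(1 + p.1) * (1 + p.2), 1; 1, 0] =
      (N Q t p / v Q t) • (!![(1 + (step Q t p).1) * (1 + (step Q t p).2), 1; 1, 0] *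
        K Q t p) := by
  refine thm_Alg Q t p G.pos.ne' ?_ ?_
  · intro hz
    exact G.v_ne t ht (by rw [v, hz, sub_self, div_zero])
  · intro hN
    have h1 := G.N_ge t p ht hp
    rw [hN, norm_zero] at h1
    have h2 : 0 < C := lt_of_lt_of_le one_pos G.one_le
    exact absurd (inv_pos.2 h2) (not_lt.2 h1)

theorem PROD_ind {η κ C Q : ℝ} (G : Good η κ C Q) (p : ℂ × ℂ) (hp : Near κ Q p) :
    ∀ L : List (ℂ × ℂ × ℂ), (∀ t ∈ L, Adm η t) →
      (L.map (T3 Q)).prod *ᵥ ![1 + p.1, 1 + p.2, 1] =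
        lam Q L p • ![1 + (orb Q L p).1, 1 + (orb Q L p).2, 1] ∧
      (L.map (T2 Q)).prod * !![(1 + p.1) * (1 + p.2), 1; 1, 0] =
        lam Q L p • (!![(1 + (orb Q L p).1) * (1 + (orb Q L p).2), 1; 1, 0] * KK Q L p) := by
  intro L
  induction L with
  | nil =>
    intro _
    refine ⟨?_, ?_⟩
    · rw [List.map_nil, List.prod_nil, Matrix.one_mulVec]
      simp only [lam, orb, List.foldr_nil, one_smul]
    · rw [List.map_nil, List.prod_nil, Matrix.one_mul]
      simp only [lam, orb, KK, List.foldr_nil, one_smul, Matrix.mul_one]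
  | cons t L ih =>
    intro h
    have h' : ∀ s ∈ L, Adm η s := fun s hs => h s (by simp [hs])
    obtain ⟨h1, h2⟩ := ih h'
    obtain ⟨h3, h4⟩ := PROD_alg G (h t (by simp)) (PROD_near G p hp L h')
    have ho : orb Q (t :: L) p = step Q t (orb Q L p) := rfl
    have hl : lam Q (t :: L) p = N Q t (orb Q L p) / v Q t * lam Q L p := rfl
    have hK : KK Q (t :: L) p = K Q t (orb Q L p) * KK Q L p := rfl
    rw [ho, hl, hK]
    refine ⟨?_, ?_⟩
    · rw [List.map_cons, List.prod_cons, ← Matrix.mulVec_mulVec, h1, Matrix.mulVec_smul, h3,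
        smul_smul, mul_comm (lam Q L p)]
    · rw [List.map_cons, List.prod_cons, Matrix.mul_assoc, h2, Matrix.mul_smul,
        ← Matrix.mul_assoc, h4, Matrix.smul_mul, Matrix.mul_assoc, smul_smul,
        mul_comm (lam Q L p)]

theorem thm_Prod : St_Prod := by
  intro η κ C Q G L hL h
  obtain ⟨p, hp, hf⟩ := PROD_fix G L hL h
  obtain ⟨h1, h2⟩ := PROD_ind G p hp L h
  rw [hf] at h1 h2
  refine ⟨p, hp, hf, h1, ?_⟩
  set P : Matrix (Fin 2) (Fin 2) ℂ := !![(1 + p.1) * (1 + p.2), 1; 1, 0] with hP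
  have hd : IsUnit P.det := by
    rw [hP, Matrix.det_fin_two_of]
    norm_num
  have h3 : (L.map (T2 Q)).prod = lam Q L p • (P * KK Q L p * P⁻¹) := by
    calc (L.map (T2 Q)).prod = (L.map (T2 Q)).prod * (P * P⁻¹) := by
          rw [Matrix.mul_nonsing_inv P hd, Matrix.mul_one]
      _ = (L.map (T2 Q)).prod * P * P⁻¹ := by rw [Matrix.mul_assoc]
      _ = lam Q L p • (P * KK Q L p * P⁻¹) := by rw [h2, Matrix.smul_mul]
  rw [h3, Matrix.trace_smul, Matrix.trace_mul_comm, ← Matrix.mul_assoc,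
    Matrix.nonsing_inv_mul P hd, Matrix.one_mul, smul_eq_mul]

end Pool.Agent.FB.U4
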