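import Pool.Agent.FB.U4St

/-!
# FB/U4 [RUN]: a run of blocks of one kind
-/

set_option autoImplicit false

open Matrix

namespace Pool.Agent.FB.U4

/-- The estimates of a run, abstract form: `m` is the length of the list minus one, `B = ‖be []‖`. -/
theorem RUN_core {T : Type*} {C Q : ℝ} (hC : 1 ≤ C) (hQ : 0 < Q) (hs : C * (C * Q) ≤ 1 / 32)
    (Kf : T → List T → Matrix (Fin 2) (Fin 2) ℂ) (be : List T → ℂ)
    (M : List T → Matrix (Fin 2) (Fin 2) ℂ) (hM0 : M [] = 1)
    (hM : ∀ t L, M (t :: L) = Kf t L * M L) (A : T → Prop)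
    (h1 : ∀ t L, (∀ u ∈ t :: L, A u) → ‖be (t :: L)‖ ≤ C * Q * ‖be L‖)
    (h2 : ∀ t L, (∀ u ∈ t :: L, A u) → ‖Kf t L 0 0 - (1 + be L)‖ ≤ C * Q * ‖be L‖)
    (h3 : ∀ t L, (∀ u ∈ t :: L, A u) → ‖Kf t L 1 0‖ ≤ C * Q ^ 2 * ‖be L‖)
    (h4 : ∀ t L, (∀ u ∈ t :: L, A u) → ‖Kf t L 0 1‖ ≤ C)
    (h5 : ∀ t L, (∀ u ∈ t :: L, A u) → ‖Kf t L 1 1‖ ≤ C * Q ^ 2)
    (hB : ‖be []‖ ≤ C * Q) :
    ∀ (L : List T) (t : T), (∀ u ∈ t :: L, A u) →
      ‖be (t :: L)‖ ≤ C * Q * (1 / 2) ^ L.length * ‖be []‖ ∧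
      ‖M (t :: L) 1 0‖ ≤ (1 / 2) ^ L.length * (C * Q ^ 2) * ‖be []‖ ∧
      ‖M (t :: L) 0 0 - (1 + be [])‖ ≤ (11 - 10 * (1 / 2) ^ L.length) * (C * Q) * ‖be []‖ ∧
      ‖M (t :: L) 0 1‖ ≤ (2 - (1 / 2) ^ L.length) * C ∧
      ‖M (t :: L) 1 1‖ ≤ (1 / 2) ^ L.length * (2 * C * Q ^ 2) := by
  have hcpos : 0 < C * Q := by positivity
  have hc : C * Q ≤ 1 / 32 := (le_mul_of_one_le_left hcpos.le hC).trans hs
  have hQc : Q ≤ C * Q := le_mul_of_one_le_left hQ.le hC
  have hq32 : Q ≤ 1 / 32 := hQc.trans hc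
  have hcq : C * Q ^ 2 ≤ 1 / 1024 := by
    have e : C * Q ^ 2 = (C * Q) * Q := by ring
    rw [e]
    calc (C * Q) * Q ≤ (1 / 32) * (1 / 32) := mul_le_mul hc hq32 hQ.le (by norm_num)
      _ = 1 / 1024 := by norm_num
  have hcq2 : C * Q ^ 2 ≤ C * Q := by
    have e : C * Q ^ 2 = (C * Q) * Q := by ring
    rw [e]
    exact mul_le_of_le_one_right hcpos.le (by linarith)
  set B : ℝ := ‖be []‖ with hBdef
  have hB0 : 0 ≤ B := norm_nonneg _
  intro L
  induction L with
  | nil =>
    intro t ht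
    have e : M [t] = Kf t [] := by rw [hM, hM0, mul_one]
    rw [e]
    simp only [List.length_nil, pow_zero, mul_one, one_mul]
    have k1 := h1 t [] ht
    have k2 := h2 t [] ht
    have k3 := h3 t [] ht
    have k4 := h4 t [] ht
    have k5 := h5 t [] ht
    refine ⟨k1, k3, ?_, ?_, ?_⟩
    · linarith
    · linarith
    · have hq2 : 0 ≤ C * Q ^ 2 := by positivity
      linarith
  | cons u L ih =>
    intro t ht
    have hu : ∀ w ∈ u :: L, A w := fun w hw => ht w (List.mem_cons_of_mem t hw)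
    obtain ⟨i1, i2, i3, i4, i5⟩ := ih u hu
    have k1 := h1 t (u :: L) ht
    have k2 := h2 t (u :: L) ht
    have k3 := h3 t (u :: L) ht
    have k4 := h4 t (u :: L) ht
    have k5 := h5 t (u :: L) ht
    rw [hM t (u :: L)]
    set b : ℝ := ‖be (u :: L)‖ with hb
    have hb0 : 0 ≤ b := norm_nonneg _
    have hlen : (u :: L).length = L.length + 1 := rfl
    rw [hlen, pow_succ]
    set r : ℝ := (1 / 2) ^ L.length with hr
    have hr0 : 0 < r := by positivity
    have hr1 : r ≤ 1 := pow_le_one₀ (by norm_num) (by norm_num)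
    have hbb : b ≤ C * Q * r * B := i1
    have hbs : b ≤ 1 / 32 := by
      calc b ≤ C * Q * r * B := hbb
        _ ≤ (1 / 32) * 1 * 1 := by
            apply mul_le_mul
            · exact mul_le_mul hc hr1 hr0.le (by norm_num)
            · linarith
            · exact hB0
            · norm_num
        _ = 1 / 32 := by norm_num
    have m00 : ‖M (u :: L) 0 0‖ ≤ 2 := by
      have e1 : M (u :: L) 0 0 = (M (u :: L) 0 0 - (1 + be [])) + (1 + be []) := by ring
      rw [e1]
      have e2 : ‖(1 : ℂ) + be []‖ ≤ 1 + B := by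
        refine (norm_add_le _ _).trans ?_
        rw [norm_one]
      have e3 : (11 - 10 * r) * (C * Q) * B ≤ 1 / 2 := by
        have : (11 - 10 * r) * (C * Q) * B ≤ 11 * (1 / 32) * 1 := by
          apply mul_le_mul
          · apply mul_le_mul
            · linarith
            · exact hc
            · exact hcpos.le
            · norm_num
          · linarith
          · exact hB0
          · norm_num
        linarith
      have := norm_add_le (M (u :: L) 0 0 - (1 + be [])) (1 + be [])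
      linarith
    have kk00 : ‖Kf t (u :: L) 0 0 - 1‖ ≤ 2 * b := by
      have e1 : Kf t (u :: L) 0 0 - 1 = (Kf t (u :: L) 0 0 - (1 + be (u :: L))) + be (u :: L) := by
        ring
      rw [e1]
      have := norm_add_le (Kf t (u :: L) 0 0 - (1 + be (u :: L))) (be (u :: L))
      have e2 : C * Q * b ≤ 1 * b := mul_le_mul_of_nonneg_right (by linarith) hb0
      linarith
    have m10 : ‖M (u :: L) 1 0‖ ≤ r * (C * Q ^ 2) * B := i2
    have m01 : ‖M (u :: L) 0 1‖ ≤ 2 * C := by
      refine i4.trans ?_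
      exact mul_le_mul_of_nonneg_right (by linarith) (by linarith)
    have m11 : ‖M (u :: L) 1 1‖ ≤ r * (2 * C * Q ^ 2) := i5
    have hCQ2 : 0 ≤ C * Q ^ 2 := by positivity
    have hrB : 0 ≤ r * B := by positivity
    refine ⟨?_, ?_, ?_, ?_, ?_⟩
    · calc ‖be (t :: u :: L)‖ ≤ C * Q * b := k1
        _ ≤ C * Q * (C * Q * r * B) := mul_le_mul_of_nonneg_left hbb hcpos.le
        _ = (C * Q * (C * Q)) * (r * B) := by ring
        _ ≤ (C * Q * (1 / 2)) * (r * B) := by
            apply mul_le_mul_of_nonneg_right _ hrB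
            exact mul_le_mul_of_nonneg_left (by linarith) hcpos.le
        _ = C * Q * (r * (1 / 2)) * B := by ring
    · rw [Matrix.mul_apply, Fin.sum_univ_two]
      have n1 : ‖Kf t (u :: L) 1 0 * M (u :: L) 0 0‖ ≤ (C * Q ^ 2 * b) * 2 := by
        rw [norm_mul]
        exact mul_le_mul k3 m00 (norm_nonneg _) (by positivity)
      have n2 : ‖Kf t (u :: L) 1 1 * M (u :: L) 1 0‖ ≤ (C * Q ^ 2) * (r * (C * Q ^ 2) * B) := by
        rw [norm_mul]
        exact mul_le_mul k5 m10 (norm_nonneg _) hCQ2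
      refine (norm_add_le _ _).trans ?_
      have n3 : (C * Q ^ 2 * b) * 2 ≤ (C * Q ^ 2) * (2 * (C * Q)) * (r * B) := by
        have := mul_le_mul_of_nonneg_left hbb hCQ2
        linarith
      have n4 : (C * Q ^ 2) * (r * (C * Q ^ 2) * B) ≤ (C * Q ^ 2) * (C * Q) * (r * B) := by
        have e1 : C * Q ^ 2 ≤ C * Q := hcq2
        calc (C * Q ^ 2) * (r * (C * Q ^ 2) * B) = (C * Q ^ 2) * (C * Q ^ 2) * (r * B) := by ring
          _ ≤ (C * Q ^ 2) * (C * Q) * (r * B) := by
            apply mul_le_mul_of_nonneg_right _ hrB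
            exact mul_le_mul_of_nonneg_left e1 hCQ2
      have n5 : (C * Q ^ 2) * (2 * (C * Q)) * (r * B) + (C * Q ^ 2) * (C * Q) * (r * B) ≤
          (C * Q ^ 2) * (1 / 2) * (r * B) := by
        have : (C * Q ^ 2) * (2 * (C * Q)) * (r * B) + (C * Q ^ 2) * (C * Q) * (r * B) =
            (C * Q ^ 2) * (3 * (C * Q)) * (r * B) := by ring
        rw [this]
        apply mul_le_mul_of_nonneg_right _ hrB
        exact mul_le_mul_of_nonneg_left (by linarith) hCQ2
      calc _ ≤ _ := add_le_add (n1.trans n3) (n2.trans n4)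
        _ ≤ _ := n5
        _ = r * (1 / 2) * (C * Q ^ 2) * B := by ring
    · rw [Matrix.mul_apply, Fin.sum_univ_two]
      have e1 : Kf t (u :: L) 0 0 * M (u :: L) 0 0 + Kf t (u :: L) 0 1 * M (u :: L) 1 0 -
          (1 + be []) = (M (u :: L) 0 0 - (1 + be [])) + ((Kf t (u :: L) 0 0 - 1) *
            M (u :: L) 0 0 + Kf t (u :: L) 0 1 * M (u :: L) 1 0) := by ring
      rw [e1]
      have n1 : ‖(Kf t (u :: L) 0 0 - 1) * M (u :: L) 0 0‖ ≤ (2 * b) * 2 := by
        rw [norm_mul]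
        exact mul_le_mul kk00 m00 (norm_nonneg _) (by linarith)
      have n2 : ‖Kf t (u :: L) 0 1 * M (u :: L) 1 0‖ ≤ C * (r * (C * Q ^ 2) * B) := by
        rw [norm_mul]
        exact mul_le_mul k4 m10 (norm_nonneg _) (by linarith)
      have n3 : C * (r * (C * Q ^ 2) * B) ≤ (C * Q) * (r * B) := by
        have : C * (r * (C * Q ^ 2) * B) = (C * Q) * (C * Q) * (r * B) := by ring
        rw [this]
        apply mul_le_mul_of_nonneg_right _ hrB
        exact mul_le_of_le_one_right hcpos.le (by linarith)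
      have n4 : (2 * b) * 2 ≤ 4 * (C * Q) * (r * B) := by
        have : 4 * (C * Q) * (r * B) = 4 * (C * Q * r * B) := by ring
        rw [this]
        linarith
      have n5 := norm_add_le (M (u :: L) 0 0 - (1 + be [])) ((Kf t (u :: L) 0 0 - 1) *
            M (u :: L) 0 0 + Kf t (u :: L) 0 1 * M (u :: L) 1 0)
      have n6 := norm_add_le ((Kf t (u :: L) 0 0 - 1) * M (u :: L) 0 0)
        (Kf t (u :: L) 0 1 * M (u :: L) 1 0)
      have n7 : (11 - 10 * (r * (1 / 2))) * (C * Q) * B =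
          (11 - 10 * r) * (C * Q) * B + 5 * (C * Q) * (r * B) := by ring
      rw [n7]
      linarith
    · rw [Matrix.mul_apply, Fin.sum_univ_two]
      have e1 : Kf t (u :: L) 0 0 * M (u :: L) 0 1 + Kf t (u :: L) 0 1 * M (u :: L) 1 1 =
          M (u :: L) 0 1 + ((Kf t (u :: L) 0 0 - 1) * M (u :: L) 0 1 +
            Kf t (u :: L) 0 1 * M (u :: L) 1 1) := by ring
      rw [e1]
      have n1 : ‖(Kf t (u :: L) 0 0 - 1) * M (u :: L) 0 1‖ ≤ (2 * b) * (2 * C) := by
        rw [norm_mul]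
        exact mul_le_mul kk00 m01 (norm_nonneg _) (by linarith)
      have n2 : ‖Kf t (u :: L) 0 1 * M (u :: L) 1 1‖ ≤ C * (r * (2 * C * Q ^ 2)) := by
        rw [norm_mul]
        exact mul_le_mul k4 m11 (norm_nonneg _) (by linarith)
      have n3 : (2 * b) * (2 * C) ≤ (1 / 4) * (C * r) := by
        have f1 : C * Q * r * B ≤ (1 / 32) * r * (1 / 32) := by
          apply mul_le_mul
          · exact mul_le_mul_of_nonneg_right hc hr0.le
          · linarith
          · exact hB0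
          · positivity
        have f2 : b ≤ (1 / 16) * r := by linarith
        calc (2 * b) * (2 * C) = (4 * C) * b := by ring
          _ ≤ (4 * C) * ((1 / 16) * r) := mul_le_mul_of_nonneg_left f2 (by linarith)
          _ = (1 / 4) * (C * r) := by ring
      have n4 : C * (r * (2 * C * Q ^ 2)) ≤ (1 / 4) * (C * r) := by
        have f1 : 2 * (C * Q ^ 2) ≤ 1 / 4 := by linarith
        have f2 : 0 ≤ C * r := by positivity
        calc C * (r * (2 * C * Q ^ 2)) = (2 * (C * Q ^ 2)) * (C * r) := by ring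
          _ ≤ (1 / 4) * (C * r) := mul_le_mul_of_nonneg_right f1 f2
      have n5 := norm_add_le (M (u :: L) 0 1) ((Kf t (u :: L) 0 0 - 1) * M (u :: L) 0 1 +
            Kf t (u :: L) 0 1 * M (u :: L) 1 1)
      have n6 := norm_add_le ((Kf t (u :: L) 0 0 - 1) * M (u :: L) 0 1)
        (Kf t (u :: L) 0 1 * M (u :: L) 1 1)
      have n7 : (2 - r * (1 / 2)) * C = (2 - r) * C + (1 / 2) * (C * r) := by ring
      rw [n7]
      linarith
    · rw [Matrix.mul_apply, Fin.sum_univ_two]
      have n1 : ‖Kf t (u :: L) 1 0 * M (u :: L) 0 1‖ ≤ (C * Q ^ 2 * b) * (2 * C) := by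
        rw [norm_mul]
        exact mul_le_mul k3 m01 (norm_nonneg _) (by positivity)
      have n2 : ‖Kf t (u :: L) 1 1 * M (u :: L) 1 1‖ ≤ (C * Q ^ 2) * (r * (2 * C * Q ^ 2)) := by
        rw [norm_mul]
        exact mul_le_mul k5 m11 (norm_nonneg _) hCQ2
      refine (norm_add_le _ _).trans ?_
      have n3 : (C * Q ^ 2 * b) * (2 * C) ≤ (C * Q ^ 2) * ((1 / 2) * r) := by
        have f0 : C * B ≤ 1 / 32 := (mul_le_mul_of_nonneg_left hB (by linarith)).trans hs
        have f1 : b * (2 * C) ≤ (1 / 2) * r := by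
          have g1 : b * (2 * C) ≤ (C * Q * r * B) * (2 * C) :=
            mul_le_mul_of_nonneg_right hbb (by linarith)
          have g2 : (C * Q * r * B) * (2 * C) = (2 * (C * Q) * (C * B)) * r := by ring
          have g3 : 2 * (C * Q) * (C * B) ≤ 2 * (1 / 32) * (1 / 32) := by
            apply mul_le_mul
            · linarith
            · exact f0
            · positivity
            · norm_num
          have g4 : (2 * (C * Q) * (C * B)) * r ≤ (2 * (1 / 32) * (1 / 32)) * r :=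
            mul_le_mul_of_nonneg_right g3 hr0.le
          linarith
        calc (C * Q ^ 2 * b) * (2 * C) = (C * Q ^ 2) * (b * (2 * C)) := by ring
          _ ≤ _ := mul_le_mul_of_nonneg_left f1 hCQ2
      have n4 : (C * Q ^ 2) * (r * (2 * C * Q ^ 2)) ≤ (C * Q ^ 2) * ((1 / 2) * r) := by
        have f1 : 2 * (C * Q ^ 2) ≤ 1 / 2 := by linarith
        apply mul_le_mul_of_nonneg_left _ hCQ2
        calc r * (2 * C * Q ^ 2) = (2 * (C * Q ^ 2)) * r := by ring
          _ ≤ (1 / 2) * r := mul_le_mul_of_nonneg_right f1 hr0.le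
      calc _ ≤ _ := add_le_add (n1.trans n3) (n2.trans n4)
        _ = r * (1 / 2) * (2 * C * Q ^ 2) := by ring

theorem RUN_near {η κ C Q : ℝ} (G : Good η κ C Q) {p : ℂ × ℂ} (hp : Near κ Q p) :
    ∀ L : List (ℂ × ℂ × ℂ), (∀ t ∈ L, Adm η t) → Near κ Q (orb Q L p) := by
  intro L
  induction L with
  | nil => intro _; exact hp
  | cons t L ih =>
    intro h
    have h1 : Near κ Q (orb Q L p) := ih fun u hu => h u (List.mem_cons_of_mem t hu)
    exact G.near t _ (h t List.mem_cons_self) h1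

/-- from the abstract estimates to the constants of the statement -/
theorem RUN_fin {C Q x B : ℝ} (hC : 1 ≤ C) (hQ : 0 < Q) (hs : C * (C * Q) ≤ 1 / 32)
    (hx0 : 0 < x) (hx1 : x ≤ 1) (hB0 : 0 ≤ B) (hB : B ≤ C * Q) :
    (11 - 10 * x) * (C * Q) * B ≤ (13 * C ^ 2 + 1) * Q ^ 2 ∧
    (2 - x) * C ≤ 13 * C ^ 2 + 1 ∧ x * (C * Q ^ 2) * B ≤ (13 * C ^ 2 + 1) * Q ^ 2 ∧
    x * (2 * C * Q ^ 2) ≤ (13 * C ^ 2 + 1) * Q ^ 2 ∧ C * Q ^ 2 ≤ (13 * C ^ 2 + 1) * Q ^ 2 := by
  have hcpos : 0 < C * Q := by positivity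
  have hc : C * Q ≤ 1 / 32 := (le_mul_of_one_le_left hcpos.le hC).trans hs
  have hCC : C ≤ C ^ 2 := by nlinarith
  have hq2 : 0 ≤ Q ^ 2 := sq_nonneg Q
  have hCQ2 : 0 ≤ C * Q ^ 2 := by positivity
  have e5 : C * Q ^ 2 ≤ C ^ 2 * Q ^ 2 := mul_le_mul_of_nonneg_right hCC hq2
  have e6 : 0 ≤ C ^ 2 * Q ^ 2 := by positivity
  have e7 : (13 * C ^ 2 + 1) * Q ^ 2 = 13 * (C ^ 2 * Q ^ 2) + Q ^ 2 := by ring
  refine ⟨?_, ?_, ?_, ?_, ?_⟩
  · have h1 : (11 - 10 * x) * (C * Q) * B ≤ 11 * (C * Q) * (C * Q) := by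
      apply mul_le_mul
      · exact mul_le_mul_of_nonneg_right (by linarith) hcpos.le
      · exact hB
      · exact hB0
      · positivity
    have h2 : 11 * (C * Q) * (C * Q) = 11 * (C ^ 2 * Q ^ 2) := by ring
    linarith
  · have h1 : (2 - x) * C ≤ 2 * C := mul_le_mul_of_nonneg_right (by linarith) (by linarith)
    have h2 : 0 ≤ C ^ 2 := sq_nonneg C
    linarith
  · have h1 : x * (C * Q ^ 2) * B ≤ 1 * (C * Q ^ 2) * 1 := by
      apply mul_le_mul
      · exact mul_le_mul_of_nonneg_right hx1 hCQ2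
      · linarith
      · exact hB0
      · positivity
    linarith
  · have h1 : x * (2 * C * Q ^ 2) ≤ 1 * (2 * C * Q ^ 2) :=
      mul_le_mul_of_nonneg_right hx1 (by positivity)
    linarith
  · linarith

theorem thm_Run : St_Run := by
  intro η κ C hη
  have hCs : 0 < 1 + C ^ 2 := by positivity
  refine ⟨13 * C ^ 2 + 1, 1 / (32 * (1 + C ^ 2)), by positivity, by nlinarith [sq_nonneg C], ?_⟩
  intro Q hQ1 G s P p hA hp
  have hC := G.one_le
  have hQ := G.pos
  have hs : C * (C * Q) ≤ 1 / 32 := by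
    have h1 : Q * (32 * (1 + C ^ 2)) ≤ 1 := by
      rw [← le_div_iff₀ (by positivity)]
      exact hQ1.le
    nlinarith
  have hκ : κ * Q ≤ C * Q := mul_le_mul_of_nonneg_right G.κ_le hQ.le
  have hx0 : (0 : ℝ) < (1 / 2) ^ P.length := by positivity
  have hx1 : ((1 : ℝ) / 2) ^ P.length ≤ 1 := pow_le_one₀ (by norm_num) (by norm_num)
  have hnP : Near κ Q (orb Q P p) := RUN_near G hp P fun u hu => hA u (List.mem_cons_of_mem s hu)
  constructor
  · intro hy
    have hB : ‖p.2‖ ≤ C * Q := hp.2.trans hκ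
    have hmain := RUN_core hC hQ hs (fun t L => K Q t (orb Q L p)) (fun L => (orb Q L p).2)
      (fun L => KK Q L p) rfl (fun _ _ => rfl) (fun t => Adm η t ∧ t.2.1 = 1)
      (fun t L h => (G.stepA t _ (h t List.mem_cons_self).1
        (RUN_near G hp L fun u hu => (h u (List.mem_cons_of_mem t hu)).1)
        (h t List.mem_cons_self).2).2)
      (fun t L h => (G.KA t _ (h t List.mem_cons_self).1
        (RUN_near G hp L fun u hu => (h u (List.mem_cons_of_mem t hu)).1)
        (h t List.mem_cons_self).2).1)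
      (fun t L h => (G.KA t _ (h t List.mem_cons_self).1
        (RUN_near G hp L fun u hu => (h u (List.mem_cons_of_mem t hu)).1)
        (h t List.mem_cons_self).2).2)
      (fun t L h => G.K01 t _ (h t List.mem_cons_self).1
        (RUN_near G hp L fun u hu => (h u (List.mem_cons_of_mem t hu)).1))
      (fun t L h => G.K11 t _ (h t List.mem_cons_self).1
        (RUN_near G hp L fun u hu => (h u (List.mem_cons_of_mem t hu)).1))
      hB P s (fun u hu => ⟨hA u hu, hy u hu⟩)
    obtain ⟨-, m10, m00, m01, m11⟩ := hmain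
    obtain ⟨f1, f2, f3, f4, f5⟩ := RUN_fin hC hQ hs hx0 hx1 (norm_nonneg p.2) hB
    exact ⟨m00.trans f1, m01.trans f2, m10.trans f3, m11.trans f4,
      (G.stepA s _ (hA s List.mem_cons_self) hnP (hy s List.mem_cons_self)).1.trans f5⟩
  · intro hy
    have hB : ‖p.1‖ ≤ C * Q := hp.1.trans hκ
    have hmain := RUN_core hC hQ hs (fun t L => K Q t (orb Q L p)) (fun L => (orb Q L p).1)
      (fun L => KK Q L p) rfl (fun _ _ => rfl) (fun t => Adm η t ∧ t.1 = 1)
      (fun t L h => (G.stepB t _ (h t List.mem_cons_self).1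
        (RUN_near G hp L fun u hu => (h u (List.mem_cons_of_mem t hu)).1)
        (h t List.mem_cons_self).2).2)
      (fun t L h => (G.KB t _ (h t List.mem_cons_self).1
        (RUN_near G hp L fun u hu => (h u (List.mem_cons_of_mem t hu)).1)
        (h t List.mem_cons_self).2).1)
      (fun t L h => (G.KB t _ (h t List.mem_cons_self).1
        (RUN_near G hp L fun u hu => (h u (List.mem_cons_of_mem t hu)).1)
        (h t List.mem_cons_self).2).2)
      (fun t L h => G.K01 t _ (h t List.mem_cons_self).1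
        (RUN_near G hp L fun u hu => (h u (List.mem_cons_of_mem t hu)).1))
      (fun t L h => G.K11 t _ (h t List.mem_cons_self).1
        (RUN_near G hp L fun u hu => (h u (List.mem_cons_of_mem t hu)).1))
      hB P s (fun u hu => ⟨hA u hu, hy u hu⟩)
    obtain ⟨-, m10, m00, m01, m11⟩ := hmain
    obtain ⟨f1, f2, f3, f4, f5⟩ := RUN_fin hC hQ hs hx0 hx1 (norm_nonneg p.1) hB
    exact ⟨m00.trans f1, m01.trans f2, m10.trans f3, m11.trans f4,
      (G.stepB s _ (hA s List.mem_cons_self) hnP (hy s List.mem_cons_self)).1.trans f5⟩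

end Pool.Agent.FB.U4
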