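import Pool.Agent.FB.U4.FINAL
import Pool.Agent.FB.U4.PROD
import Pool.Agent.FB.U4.RUN
import Pool.Agent.FB.U4.ALT

/-!
# The uniform closed four-braid theorem, assembled

`thm_U4 : St_U4` (statement of the captain in `Pool/Agent/FB/Defs.lean`).
-/

set_option autoImplicit false

namespace Pool.Agent.FB.U4

theorem thm_Alt : St_Alt := Alt_of thm_Run

theorem thm_U4 : St_U4 := Final_of thm_Prod thm_Alt

end Pool.Agent.FB.U4
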