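import Pool.Agent.FB.U4St

/-!
# FB/U4/ALG: one block
-/

set_option autoImplicit false

open Matrix

namespace Pool.Agent.FB.U4

theorem thm_Alg : St_Alg := by
  intro Q t p hQ hz hN
  obtain ⟨x, y, z⟩ := t
  obtain ⟨α, β⟩ := p
  have hQ' : (Q : ℂ) ≠ 0 := by exact_mod_cast hQ
  have hz' : z - 1 ≠ 0 := sub_ne_zero.2 hz
  have hv : v Q (x, y, z) ≠ 0 := by
    simp only [v]
    exact div_ne_zero hQ' hz'
  have hc : (z - 1) / (Q : ℂ) = 1 / v Q (x, y, z) := by
    simp only [v]
    rw [one_div_div]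
  set w := v Q (x, y, z) with hw
  set n := N Q (x, y, z) (α, β) with hn
  have hn2 : n = w + Q + (x * (1 + α) - 1) + (y * (1 + β) - 1) := by
    rw [hn, N, X, Y]
  have hT3 : T3 Q (x, y, z) = (1 + (1 / w) • !![1, 1, (Q : ℂ) - 2; 1, 1, (Q : ℂ) - 2;
      1, 1, (Q : ℂ) - 2]) * Matrix.diagonal ![x, y, 1] := by
    rw [T3, hc]
  have hT2 : T2 Q (x, y, z) = (1 + (1 / w) • !![1, (Q : ℂ) - 1; 1, (Q : ℂ) - 1]) *
      Matrix.diagonal ![x * y, 1] := by
    rw [T2, hc]
  have hs1 : (step Q (x, y, z) (α, β)).1 = w * (x * (1 + α) - 1) / n := by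
    simp only [step, X, ← hw, ← hn]
  have hs2 : (step Q (x, y, z) (α, β)).2 = w * (y * (1 + β) - 1) / n := by
    simp only [step, Y, ← hw, ← hn]
  have hK : K Q (x, y, z) (α, β) =
      !![1 + (x * (1 + α) - 1) * (y * (1 + β) - 1) / n, x * y / n;
        w / n ^ 2 * ((x * (1 + α) - 1) * (y * (1 + β) - 1) *
          (Q - w * ((x * (1 + α) - 1) * (y * (1 + β) - 1)) / n)),
        w / n ^ 2 * (x * y * (w + Q - w * ((x * (1 + α) - 1) * (y * (1 + β) - 1)) / n))] := by
    simp only [K, X, Y, ← hw, ← hn]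
  have hQn : (Q : ℂ) = n - w - (x * (1 + α) - 1) - (y * (1 + β) - 1) := by
    rw [hn2]; ring
  constructor
  · rw [hT3, hs1, hs2]
    ext i
    fin_cases i
    · simp [Matrix.mulVec, Matrix.mul_apply, dotProduct, Fin.sum_univ_three, Matrix.diagonal,
        Matrix.one_apply]
      rw [hQn]
      field_simp
      ring
    · simp [Matrix.mulVec, Matrix.mul_apply, dotProduct, Fin.sum_univ_three, Matrix.diagonal,
        Matrix.one_apply]
      rw [hQn]
      field_simp
      ring
    · simp [Matrix.mulVec, Matrix.mul_apply, dotProduct, Fin.sum_univ_three, Matrix.diagonal,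
        Matrix.one_apply]
      rw [hQn]
      field_simp
      ring
  · rw [hT2, hs1, hs2, hK]
    ext i j
    fin_cases i <;> fin_cases j
    · simp [Matrix.mul_apply, Fin.sum_univ_two, Matrix.diagonal, Matrix.one_apply]
      rw [hQn]
      field_simp
      ring
    · simp [Matrix.mul_apply, Fin.sum_univ_two, Matrix.diagonal, Matrix.one_apply]
      rw [hQn]
      field_simp
      ring
    · simp [Matrix.mul_apply, Fin.sum_univ_two, Matrix.diagonal, Matrix.one_apply]
      rw [hQn]
      field_simp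
      ring
    · simp [Matrix.mul_apply, Fin.sum_univ_two, Matrix.diagonal, Matrix.one_apply]
      field_simp

end Pool.Agent.FB.U4
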