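import Pool.Agent.FB.U4St

/-!
# FB/U4/COMB: cyclic lists as cyclic concatenations of pairs of runs

Module U4_COMB (`thm_Comb : St_Comb`).
-/

set_option autoImplicit false

namespace Pool.Agent.FB.U4

/-- the last element which is not of kind `p` -/
theorem COMB_last {α : Type*} (p : α → Prop) (T : List α) (h : ∃ b ∈ T, ¬ p b) :
    ∃ T1 b T2, T = T1 ++ b :: T2 ∧ ¬ p b ∧ ∀ t ∈ T2, p t := by
  induction T with
  | nil => obtain ⟨b, hb, _⟩ := h; simp at hb
  | cons c T ih =>
    by_cases hT : ∃ b ∈ T, ¬ p b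
    · obtain ⟨T1, b, T2, h1, h2, h3⟩ := ih hT
      exact ⟨c :: T1, b, T2, by rw [h1]; rfl, h2, h3⟩
    · have hT' : ∀ t ∈ T, p t := fun t ht => by
        by_contra hc
        exact hT ⟨t, ht, hc⟩
      obtain ⟨b, hb, hpb⟩ := h
      rcases List.mem_cons.1 hb with rfl | hb
      · exact ⟨[], b, T, rfl, hpb, hT'⟩
      · exact absurd (hT' b hb) hpb

/-- pairs of runs of the kinds `p`, `¬ p` -/
def COMB_Nice {α : Type*} (p : α → Prop) (R : List (List α × List α)) : Prop :=
  ∀ q ∈ R, q.1 ≠ [] ∧ q.2 ≠ [] ∧ (∀ t ∈ q.1, p t) ∧ ∀ t ∈ q.2, ¬ p t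

theorem COMB_claim {α : Type*} (p : α → Prop) (b : α) (hb : ¬ p b) (M : List α) :
    ∃ (B : List α) (R : List (List α × List α)), (∀ t ∈ B, ¬ p t) ∧ COMB_Nice p R ∧
      M ++ [b] = B ++ (R.map fun q => q.1 ++ q.2).flatten := by
  induction M with
  | nil =>
    refine ⟨[b], [], ?_, ?_, by simp⟩
    · intro t ht
      rw [List.mem_singleton] at ht
      rw [ht]
      exact hb
    · intro q hq
      simp at hq
  | cons c M ih =>
    obtain ⟨B, R, hB, hR, hM⟩ := ih
    by_cases hc : p c
    · by_cases hB0 : B = []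
      · subst hB0
        cases R with
        | nil => simp at hM
        | cons q R =>
          have hq := hR q (by simp)
          refine ⟨[], (c :: q.1, q.2) :: R, by simp, ?_, ?_⟩
          · intro q' hq'
            rcases List.mem_cons.1 hq' with rfl | hq'
            · refine ⟨by simp, hq.2.1, ?_, hq.2.2.2⟩
              intro t ht
              rcases List.mem_cons.1 ht with rfl | ht
              · exact hc
              · exact hq.2.2.1 t ht
            · exact hR q' (List.mem_cons_of_mem _ hq')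
          · rw [List.cons_append, hM]
            simp
      · refine ⟨[], ([c], B) :: R, by simp, ?_, ?_⟩
        · intro q' hq'
          rcases List.mem_cons.1 hq' with rfl | hq'
          · refine ⟨by simp, hB0, ?_, hB⟩
            intro t ht
            rw [List.mem_singleton] at ht
            rw [ht]
            exact hc
          · exact hR q' hq'
        · rw [List.cons_append, hM]
          simp
    · refine ⟨c :: B, R, ?_, hR, ?_⟩
      · intro t ht
        rcases List.mem_cons.1 ht with rfl | ht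
        · exact hc
        · exact hB t ht
      · rw [List.cons_append, hM]
        rfl

theorem COMB_gen {α : Type*} (p : α → Prop) (L : List α) (h1 : ∃ a ∈ L, p a)
    (h2 : ∃ b ∈ L, ¬ p b) :
    ∃ R : List (List α × List α), R ≠ [] ∧ COMB_Nice p R ∧
      L ~r (R.map fun q => q.1 ++ q.2).flatten := by
  obtain ⟨a, ha, hpa⟩ := h1
  obtain ⟨b0, hb0, hpb0⟩ := h2
  obtain ⟨P, S, rfl⟩ := List.append_of_mem ha
  have hb1 : ∃ b ∈ S ++ P, ¬ p b := by
    refine ⟨b0, ?_, hpb0⟩
    rcases List.mem_append.1 hb0 with h | h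
    · exact List.mem_append_right _ h
    · rcases List.mem_cons.1 h with rfl | h
      · exact absurd hpa hpb0
      · exact List.mem_append_left _ h
  obtain ⟨T1, b, T2, hT, hpb, hT2⟩ := COMB_last p _ hb1
  obtain ⟨B, R, hB, hR, hM⟩ := COMB_claim p b hpb (T2 ++ a :: T1)
  have hB0 : B = [] := by
    cases B with
    | nil => rfl
    | cons c B =>
      exfalso
      have hc : ¬ p c := hB c (by simp)
      cases T2 with
      | nil =>
        simp only [List.nil_append, List.cons_append, List.cons.injEq] at hM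
        exact hc (hM.1 ▸ hpa)
      | cons d T2 =>
        simp only [List.cons_append, List.cons.injEq] at hM
        exact hc (hM.1 ▸ hT2 d (by simp))
  rw [hB0, List.nil_append] at hM
  refine ⟨R, ?_, hR, ?_⟩
  · rintro rfl
    simp at hM
  · rw [← hM]
    have e1 : (P ++ a :: S) ~r (a :: S ++ P) := List.isRotated_append
    have e2 : a :: S ++ P = (a :: T1 ++ [b]) ++ T2 := by
      rw [List.cons_append, hT]
      simp
    have e3 : ((a :: T1 ++ [b]) ++ T2) ~r (T2 ++ (a :: T1 ++ [b])) := List.isRotated_append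
    rw [e2] at e1
    have e4 : T2 ++ (a :: T1 ++ [b]) = T2 ++ a :: T1 ++ [b] := by simp
    rw [← e4]
    exact e1.trans e3

theorem thm_Comb : St_Comb := by
  intro L h h1 h2
  obtain ⟨a, ha, ha1⟩ := h1
  obtain ⟨b, hb, hb1⟩ := h2
  obtain ⟨R, hR0, hR, hL⟩ := COMB_gen (fun t : ℂ × ℂ × ℂ => t.1 ≠ 1) L
    ⟨a, ha, ha1⟩ ⟨b, hb, fun hc => by
      rcases h b hb with h' | h'
      · exact hc h'
      · exact hb1 h'⟩
  refine ⟨R, hR0, ?_, hL⟩
  intro q hq
  obtain ⟨q1, q2, q3, q4⟩ := hR q hq
  have hmem : ∀ t ∈ q.1 ++ q.2, t ∈ L := by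
    intro t ht
    rw [hL.mem_iff]
    exact List.mem_flatten.2 ⟨q.1 ++ q.2, List.mem_map.2 ⟨q, hq, rfl⟩, ht⟩
  refine ⟨q1, q2, ?_, ?_⟩
  · intro t ht
    rcases h t (hmem t (List.mem_append_left _ ht)) with h' | h'
    · exact absurd h' (q3 t ht)
    · exact h'
  · intro t ht
    exact not_not.1 (q4 t ht)

end Pool.Agent.FB.U4
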