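import Pool.Agent.FB.U4St

/-!
# FB/U4: the Hermitian form (HERM)
-/

set_option autoImplicit false

open Matrix

namespace Pool.Agent.FB.U4

open ComplexConjugate in
private theorem HERM_one {Q : ℝ} (hQ : 0 < Q) (t : ℂ × ℂ × ℂ)
    (ht : ‖t.1‖ = 1 ∧ ‖t.2.1‖ = 1 ∧ ‖t.2.2‖ = 1) :
    (T3 Q t)ᴴ * diagonal ![1, 1, (Q : ℂ) - 2] * T3 Q t = diagonal ![1, 1, (Q : ℂ) - 2] := by
  obtain ⟨x, y, z⟩ := t
  obtain ⟨hx, hy, hz⟩ := ht
  have hQ' : (Q : ℂ) ≠ 0 := Complex.ofReal_ne_zero.2 hQ.ne'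
  have hn : ∀ u : ℂ, ‖u‖ = 1 → conj u * u = 1 := by
    intro u hu
    rw [Complex.conj_mul', hu]
    simp
  have hx' := hn x hx
  have hy' := hn y hy
  have hz' := hn z hz
  set J : Matrix (Fin 3) (Fin 3) ℂ :=
    !![1, 1, (Q : ℂ) - 2; 1, 1, (Q : ℂ) - 2; 1, 1, (Q : ℂ) - 2] with hJ
  set c : ℂ := (z - 1) / Q with hc
  have hcc : c + conj c + conj c * c * Q = 0 := by
    rw [hc, map_div₀, map_sub, map_one, Complex.conj_ofReal]
    field_simp
    linear_combination hz'
  have h1 : (1 + c • J)ᴴ * diagonal ![1, 1, (Q : ℂ) - 2] * (1 + c • J) =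
      diagonal ![1, 1, (Q : ℂ) - 2] := by
    have e1 : (1 + c • J)ᴴ = 1 + conj c • Jᴴ := by
      rw [conjTranspose_add, conjTranspose_one, conjTranspose_smul]
      rfl
    have e2 : Jᴴ = !![1, 1, 1; 1, 1, 1; (Q : ℂ) - 2, (Q : ℂ) - 2, (Q : ℂ) - 2] := by
      ext i j
      fin_cases i <;> fin_cases j <;> simp [hJ, conjTranspose_apply]
    rw [e1, e2]
    ext i j
    fin_cases i <;> fin_cases j <;>
      simp [hJ, Matrix.mul_apply, Fin.sum_univ_three, Matrix.one_apply, diagonal_apply] <;>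
      first
        | linear_combination hcc
        | linear_combination ((Q : ℂ) - 2) * hcc
        | linear_combination ((Q : ℂ) - 2) ^ 2 * hcc
  have e3 : T3 Q (x, y, z) = (1 + c • J) * diagonal ![x, y, 1] := rfl
  rw [e3, conjTranspose_mul]
  have e4 : (diagonal ![x, y, 1])ᴴ * (1 + c • J)ᴴ * diagonal ![1, 1, (Q : ℂ) - 2] *
      ((1 + c • J) * diagonal ![x, y, 1]) =
      (diagonal ![x, y, 1])ᴴ * ((1 + c • J)ᴴ * diagonal ![1, 1, (Q : ℂ) - 2] * (1 + c • J)) *
        diagonal ![x, y, 1] := by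
    simp only [Matrix.mul_assoc]
  rw [e4, h1, diagonal_conjTranspose, diagonal_mul_diagonal, diagonal_mul_diagonal]
  congr 1
  funext i
  fin_cases i
  · simpa using hx'
  · simpa using hy'
  · simp

private theorem HERM_prod {Q : ℝ} (hQ : 0 < Q) : ∀ L : List (ℂ × ℂ × ℂ),
    (∀ t ∈ L, ‖t.1‖ = 1 ∧ ‖t.2.1‖ = 1 ∧ ‖t.2.2‖ = 1) →
    ((L.map (T3 Q)).prod)ᴴ * diagonal ![1, 1, (Q : ℂ) - 2] * (L.map (T3 Q)).prod =
      diagonal ![1, 1, (Q : ℂ) - 2]
  | [], _ => by simp
  | t :: L, h => by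
    have ih := HERM_prod hQ L fun s hs => h s (List.mem_cons_of_mem _ hs)
    have h1 := HERM_one hQ t (h t List.mem_cons_self)
    rw [List.map_cons, List.prod_cons, conjTranspose_mul]
    have e4 : ((L.map (T3 Q)).prod)ᴴ * (T3 Q t)ᴴ * diagonal ![1, 1, (Q : ℂ) - 2] *
        (T3 Q t * (L.map (T3 Q)).prod) =
        ((L.map (T3 Q)).prod)ᴴ * ((T3 Q t)ᴴ * diagonal ![1, 1, (Q : ℂ) - 2] * T3 Q t) *
          (L.map (T3 Q)).prod := by
      simp only [Matrix.mul_assoc]
    rw [e4, h1, ih]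

theorem thm_Herm : St_Herm := by
  intro Q L l w hQ hQ1 hL hw hPw hl
  set P := (L.map (T3 Q)).prod with hP
  have hH : Pᴴ * diagonal ![1, 1, (Q : ℂ) - 2] * P = diagonal ![1, 1, (Q : ℂ) - 2] :=
    HERM_prod hQ L hL
  have hQ2 : (Q : ℂ) - 2 ≠ 0 := by
    intro h
    have h1 : (Q : ℂ) = ((2 : ℝ) : ℂ) := by
      rw [sub_eq_zero] at h
      rw [h]
      norm_num
    have h2 : Q = 2 := Complex.ofReal_injective h1
    linarith
  set H : Matrix (Fin 3) (Fin 3) ℂ := diagonal ![1, 1, (Q : ℂ) - 2] with hHd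
  set H' : Matrix (Fin 3) (Fin 3) ℂ := diagonal ![1, 1, ((Q : ℂ) - 2)⁻¹] with hHd'
  have hHH : H' * H = 1 := by
    rw [hHd, hHd', diagonal_mul_diagonal, ← diagonal_one]
    congr 1
    funext i
    fin_cases i
    · simp
    · simp
    · simpa using inv_mul_cancel₀ hQ2
  have hHH' : H * H' = 1 := by
    rw [hHd, hHd', diagonal_mul_diagonal, ← diagonal_one]
    congr 1
    funext i
    fin_cases i
    · simp
    · simp
    · simpa using mul_inv_cancel₀ hQ2
  have hdet0 : H.det ≠ 0 := by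
    intro h
    have := congrArg Matrix.det hHH
    rw [det_mul, h, mul_zero, det_one] at this
    exact zero_ne_one this
  -- the determinant
  have hd : ‖P.det‖ = 1 := by
    have h1 := congrArg Matrix.det hH
    rw [det_mul, det_mul, det_conjTranspose] at h1
    have h2 : star P.det * P.det = 1 := by
      apply mul_right_cancel₀ hdet0
      rw [one_mul]
      linear_combination h1
    have h3 : ‖P.det‖ * ‖P.det‖ = 1 := by
      have := congrArg norm h2
      rw [norm_mul, norm_star, norm_one] at this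
      exact this
    nlinarith [norm_nonneg P.det]
  -- the adjugate
  have hadj : P.adjugate.trace = P.det * star P.trace := by
    have h1 : P.det • (Pᴴ * H) = H * P.adjugate := by
      have h0 : H * P.adjugate = Pᴴ * H * P * P.adjugate := by rw [hH]
      rw [h0, Matrix.mul_assoc (Pᴴ * H) P P.adjugate, mul_adjugate, Matrix.mul_smul,
        Matrix.mul_one]
    have h2 : P.adjugate = P.det • (H' * (Pᴴ * H)) := by
      rw [← Matrix.mul_smul, h1, ← Matrix.mul_assoc, hHH, Matrix.one_mul]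
    rw [h2, trace_smul, Matrix.trace_mul_comm, Matrix.mul_assoc, hHH', Matrix.mul_one,
      trace_conjTranspose, smul_eq_mul]
  -- the characteristic polynomial
  have hchar : l ^ 3 - P.trace * l ^ 2 + P.adjugate.trace * l - P.det = 0 := by
    have h1 : (l • (1 : Matrix (Fin 3) (Fin 3) ℂ) - P).det = 0 := by
      rw [← exists_mulVec_eq_zero_iff]
      refine ⟨w, hw, ?_⟩
      rw [sub_mulVec, hPw, smul_mulVec, one_mulVec, sub_self]
    rw [← h1, det_fin_three P, det_fin_three (l • (1 : Matrix (Fin 3) (Fin 3) ℂ) - P),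
      trace_fin_three P, trace_fin_three P.adjugate, adjugate_fin_three]
    simp
    ring
  -- the estimate
  have hl0 : l ≠ 0 := by
    rintro rfl
    rw [norm_zero] at hl
    linarith
  have h1 : (P.trace - l) * l ^ 2 = P.adjugate.trace * l - P.det := by
    linear_combination (-1 : ℂ) * hchar
  have h2 : ‖P.trace - l‖ * ‖l‖ ^ 2 ≤ ‖P.trace‖ * ‖l‖ + 1 := by
    rw [← norm_pow, ← norm_mul, h1, hadj]
    refine (norm_sub_le _ _).trans ?_
    rw [norm_mul, norm_mul, norm_star, hd, one_mul]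
  have h3 : ‖P.trace‖ ≤ ‖P.trace - l‖ + ‖l‖ := by
    have := norm_add_le (P.trace - l) l
    rwa [sub_add_cancel] at this
  have h4 : 0 ≤ ‖P.trace - l‖ := norm_nonneg _
  by_contra hcon
  rw [not_le] at hcon
  nlinarith [mul_nonneg h4 (norm_nonneg l), mul_le_mul_of_nonneg_right h3 (norm_nonneg l)]

end Pool.Agent.FB.U4
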