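import Pool.Agent.FB.U4St

/-!
# FB/U4, module LIST: the comparison matrix of a list of blocks
-/

set_option autoImplicit false

open Matrix

namespace Pool.Agent.FB.U4

private lemma LIST_one (K : Matrix (Fin 2) (Fin 2) ℂ) (W g : ℝ) (hW : 0 ≤ W)
    (h0 : ‖K 0 0‖ + W * ‖K 1 0‖ ≤ g) (h1 : ‖K 0 1‖ + W * ‖K 1 1‖ ≤ g * W) (u : Fin 2 → ℂ) :
    nu W (K *ᵥ u) ≤ g * nu W u := by
  have e0 : (K *ᵥ u) 0 = K 0 0 * u 0 + K 0 1 * u 1 := by
    simp [Matrix.mulVec, dotProduct, Fin.sum_univ_two]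
  have e1 : (K *ᵥ u) 1 = K 1 0 * u 0 + K 1 1 * u 1 := by
    simp [Matrix.mulVec, dotProduct, Fin.sum_univ_two]
  have a0 : ‖(K *ᵥ u) 0‖ ≤ ‖K 0 0‖ * ‖u 0‖ + ‖K 0 1‖ * ‖u 1‖ := by
    rw [e0]
    exact (norm_add_le _ _).trans (by rw [norm_mul, norm_mul])
  have a1 : ‖(K *ᵥ u) 1‖ ≤ ‖K 1 0‖ * ‖u 0‖ + ‖K 1 1‖ * ‖u 1‖ := by
    rw [e1]
    exact (norm_add_le _ _).trans (by rw [norm_mul, norm_mul])
  have b0 := mul_le_mul_of_nonneg_right h0 (norm_nonneg (u 0))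
  have b1 := mul_le_mul_of_nonneg_right h1 (norm_nonneg (u 1))
  have c1 := mul_le_mul_of_nonneg_left a1 hW
  unfold nu
  nlinarith [a0, b0, b1, c1]

/-- one block: the factor `max (‖K00‖ + 4C‖K10‖) (1/3)` -/
private lemma LIST_blk {η κ C Q : ℝ} (h : Good η κ C Q) (hQ : C ^ 3 * Q ≤ 1 / 100)
    (t : ℂ × ℂ × ℂ) (p : ℂ × ℂ) (ht : Adm η t) (hp : Near κ Q p) (u : Fin 2 → ℂ) :
    nu (4 * C) (K Q t p *ᵥ u) ≤
      max (‖K Q t p 0 0‖ + 4 * C * ‖K Q t p 1 0‖) (1 / 3) * nu (4 * C) u := by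
  have hC := h.one_le
  have hq := h.pos
  refine LIST_one _ _ _ (by linarith) (le_max_left _ _) ?_ u
  have h1 := h.K01 t p ht hp
  have h2 := h.K11 t p ht hp
  have h3 : ‖K Q t p 0 1‖ + 4 * C * ‖K Q t p 1 1‖ ≤ 1 / 3 * (4 * C) := by
    have h4 : 4 * C * ‖K Q t p 1 1‖ ≤ 4 * C * (C * Q ^ 2) :=
      mul_le_mul_of_nonneg_left h2 (by linarith)
    have h5 : C * Q ≤ 1 / 100 := by
      have : C * Q ≤ C ^ 3 * Q := mul_le_mul_of_nonneg_right (by nlinarith [hC, mul_nonneg (sub_nonneg.2 hC) (sub_nonneg.2 hC)]) hq.le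
      linarith
    have h6 : Q ≤ 1 / 100 := by nlinarith
    have h7 : C * Q ^ 2 ≤ 1 / 12 := by nlinarith
    nlinarith
  exact h3.trans (mul_le_mul_of_nonneg_right (le_max_right _ _) (by linarith))

/-- the facts about a nonempty list with head `t`, factor `G` and end state `o` -/
private def LIST_Hd (C Q G : ℝ) (t : ℂ × ℂ × ℂ) (o : ℂ × ℂ) : Prop :=
  (t.2.1 = 1 → G * (1 + 4 * ‖o.2‖) ≤ 1 + 4 * C * Q ∧ ‖o.1 - v Q t‖ ≤ C * Q ^ 2) ∧
  (t.1 = 1 → G * (1 + 4 * ‖o.1‖) ≤ 1 + 4 * C * Q ∧ ‖o.2 - v Q t‖ ≤ C * Q ^ 2) ∧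
  (t.1 ≠ 1 → t.2.1 ≠ 1 → G ≤ 1 - 1 / (2 * C))

private def LIST_Inv (C Q G : ℝ) (L : List (ℂ × ℂ × ℂ)) (o : ℂ × ℂ) : Prop :=
  match L with
  | [] => G = 1
  | t :: _ => LIST_Hd C Q G t o

/-- the scalar inequalities for one more block without `σ₃` (or `σ₁`): `b` is the norm of the
relevant coordinate before, `b'` after, `k = ‖K00‖ + 4C‖K10‖` -/
private lemma LIST_same {C Q b b' g G : ℝ} (hC : 1 ≤ C) (hQ0 : 0 < Q) (hQ : C ^ 3 * Q ≤ 1 / 100)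
    (hb : 0 ≤ b) (hbk : b ≤ C * Q) (hb'0 : 0 ≤ b') (hb' : b' ≤ C * Q * b) (hg : g ≤ 1 + 2 * b)
    (hG0 : 0 ≤ G) (hG : G * (1 + 4 * b) ≤ 1 + 4 * C * Q) :
    g * G * (1 + 4 * b') ≤ 1 + 4 * C * Q := by
  have h5 : C * Q ≤ 1 / 100 := by
    have : C * Q ≤ C ^ 3 * Q := mul_le_mul_of_nonneg_right (by nlinarith [hC, mul_nonneg (sub_nonneg.2 hC) (sub_nonneg.2 hC)]) hQ0.le
    linarith
  have h6 : b' ≤ 1 / 100 * b := hb'.trans (mul_le_mul_of_nonneg_right h5 hb)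
  have h7 : b ≤ 1 / 100 := hbk.trans h5
  have h8 : g * (1 + 4 * b') ≤ 1 + 4 * b := by
    have : g * (1 + 4 * b') ≤ (1 + 2 * b) * (1 + 4 * (1 / 100 * b)) := by
      apply mul_le_mul hg (by linarith) (by linarith) (by linarith)
    nlinarith
  calc g * G * (1 + 4 * b') = G * (g * (1 + 4 * b')) := by ring
    _ ≤ G * (1 + 4 * b) := mul_le_mul_of_nonneg_left h8 hG0
    _ ≤ _ := hG

private lemma LIST_CQ {C Q : ℝ} (hC : 1 ≤ C) (hQ0 : 0 < Q) (hQ : C ^ 3 * Q ≤ 1 / 100) :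
    C ^ 2 * Q ≤ 1 / 100 ∧ C * Q ≤ 1 / 100 ∧ Q ≤ 1 / 100 := by
  have h1 : C ^ 2 * Q ≤ C ^ 3 * Q :=
    mul_le_mul_of_nonneg_right (pow_le_pow_right₀ hC (by norm_num)) hQ0.le
  have h2 : C ^ 1 * Q ≤ C ^ 3 * Q :=
    mul_le_mul_of_nonneg_right (pow_le_pow_right₀ hC (by norm_num)) hQ0.le
  have h3 : C ^ 0 * Q ≤ C ^ 3 * Q :=
    mul_le_mul_of_nonneg_right (pow_le_pow_right₀ hC (by norm_num)) hQ0.le
  rw [pow_one] at h2
  rw [pow_zero, one_mul] at h3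
  exact ⟨h1.trans hQ, h2.trans hQ, h3.trans hQ⟩

/-- one more block without `σ₃` (or `σ₁`) -/
private lemma LIST_single {C Q b b' G : ℝ} {β k0 k1 : ℂ} (hC : 1 ≤ C) (hQ0 : 0 < Q)
    (hQ : C ^ 3 * Q ≤ 1 / 100) (hb : ‖β‖ = b) (hbk : b ≤ C * Q) (hb'0 : 0 ≤ b')
    (hb' : b' ≤ C * Q * b) (h0 : ‖k0 - (1 + β)‖ ≤ C * Q * b) (h1 : ‖k1‖ ≤ C * Q ^ 2 * b)
    (hG0 : 0 ≤ G) (hG1 : G ≤ 1 + 4 * C * Q)
    (hp : G * (1 + 4 * b) ≤ 1 + 4 * C * Q ∨ ‖1 + β‖ ≤ 1 - Q / 2 + 2 * C * Q ^ 2) :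
    max (‖k0‖ + 4 * C * ‖k1‖) (1 / 3) * G * (1 + 4 * b') ≤ 1 + 4 * C * Q := by
  obtain ⟨q2, q1, q0⟩ := LIST_CQ hC hQ0 hQ
  have hb0 : 0 ≤ b := hb ▸ norm_nonneg β
  have e0 : ‖k0‖ ≤ ‖1 + β‖ + C * Q * b := by
    have : k0 = (k0 - (1 + β)) + (1 + β) := by ring
    rw [this]
    exact (norm_add_le _ _).trans (by linarith)
  have e1 : 4 * C * ‖k1‖ ≤ 4 * (C ^ 2 * Q) * Q * b := by
    calc 4 * C * ‖k1‖ ≤ 4 * C * (C * Q ^ 2 * b) := mul_le_mul_of_nonneg_left h1 (by linarith)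
      _ = _ := by ring
  have e2 : 4 * (C ^ 2 * Q) * Q * b ≤ 4 * (1 / 100) * Q * b := by
    have : 0 ≤ Q * b := mul_nonneg hQ0.le hb0
    nlinarith
  have e3 : C * Q * b ≤ 1 / 100 * b := mul_le_mul_of_nonneg_right q1 hb0
  have e4 : Q * b ≤ 1 / 100 * b := mul_le_mul_of_nonneg_right q0 hb0
  rcases hp with hp | hp
  · refine LIST_same hC hQ0 hQ hb0 hbk hb'0 hb' (max_le ?_ (by linarith)) hG0 hp
    have e5 : ‖1 + β‖ ≤ 1 + b := by
      rw [← hb]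
      exact (norm_add_le _ _).trans (by rw [norm_one])
    nlinarith
  · have f1 : C * Q * b ≤ C ^ 2 * Q * Q := by
      calc C * Q * b ≤ C * Q * (C * Q) := mul_le_mul_of_nonneg_left hbk (by positivity)
        _ = _ := by ring
    have f2 : b' ≤ C ^ 2 * Q * Q := hb'.trans f1
    have f3 : C ^ 2 * Q * Q ≤ 1 / 100 * Q := mul_le_mul_of_nonneg_right q2 hQ0.le
    have f4 : C * Q ^ 2 ≤ 1 / 100 * Q := by
      calc C * Q ^ 2 = C * Q * Q := by ring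
        _ ≤ _ := mul_le_mul_of_nonneg_right q1 hQ0.le
    have f5 : 4 * (1 / 100) * Q * b ≤ 1 / 100 * Q := by
      have : b ≤ 1 / 100 := hbk.trans q1
      nlinarith
    have f6 : ‖k0‖ + 4 * C * ‖k1‖ ≤ 1 - 1 / 3 * Q := by nlinarith
    have f7 : max (‖k0‖ + 4 * C * ‖k1‖) (1 / 3) ≤ 1 - 1 / 3 * Q :=
      max_le f6 (by linarith)
    have f8 : max (‖k0‖ + 4 * C * ‖k1‖) (1 / 3) * (1 + 4 * b') ≤ 1 := by
      have g1 : 1 + 4 * b' ≤ 1 + 4 / 100 * Q := by linarith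
      calc max (‖k0‖ + 4 * C * ‖k1‖) (1 / 3) * (1 + 4 * b')
          ≤ (1 - 1 / 3 * Q) * (1 + 4 / 100 * Q) :=
            mul_le_mul f7 g1 (by linarith) (by linarith)
        _ ≤ 1 := by nlinarith
    calc max (‖k0‖ + 4 * C * ‖k1‖) (1 / 3) * G * (1 + 4 * b')
        = G * (max (‖k0‖ + 4 * C * ‖k1‖) (1 / 3) * (1 + 4 * b')) := by ring
      _ ≤ G * 1 := mul_le_mul_of_nonneg_left f8 hG0
      _ ≤ _ := by linarith

/-- a double block: the factor is small -/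
private lemma LIST_double {C Q G k0 k1 : ℝ} (hC : 1 ≤ C) (hQ0 : 0 < Q)
    (hQ : C ^ 3 * Q ≤ 1 / 100) (h0 : k0 ≤ 1 - C⁻¹) (h1 : k1 ≤ C * Q ^ 2)
    (hG0 : 0 ≤ G) (hG1 : G ≤ 1 + 4 * C * Q) :
    max (k0 + 4 * C * k1) (1 / 3) * G ≤ 1 - 1 / (2 * C) := by
  obtain ⟨q2, q1, q0⟩ := LIST_CQ hC hQ0 hQ
  have hC0 : 0 < C := by linarith
  have hi : 1 / (2 * C) = C⁻¹ / 2 := by
    rw [one_div, mul_inv]
    ring
  have hi1 : C⁻¹ ≤ 1 := inv_le_one_of_one_le₀ hC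
  have hi0 : 0 < C⁻¹ := inv_pos.2 hC0
  -- everything in terms of `i = 1/C`: `C Q ≤ i/100`
  have a1 : C * Q ≤ C⁻¹ / 100 := by
    have : C * Q * C ≤ 1 / 100 := by nlinarith
    rw [le_div_iff₀ (by norm_num : (0 : ℝ) < 100)]
    have h2 : C * Q * 100 = C * Q * C * 100 * C⁻¹ := by
      field_simp
    rw [h2]
    have : C * Q * C * 100 ≤ 1 := by linarith
    nlinarith
  have a2 : 4 * C * k1 ≤ C⁻¹ / 100 := by
    have b1 : 4 * C * k1 ≤ 4 * C * (C * Q ^ 2) := mul_le_mul_of_nonneg_left h1 (by linarith)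
    have b2 : 4 * C * (C * Q ^ 2) = 4 * (C * Q) * (C * Q) := by ring
    have b3 : (C * Q) * (C * Q) ≤ 1 / 100 * (C⁻¹ / 100) := by
      apply mul_le_mul q1 a1 (by positivity) (by norm_num)
    nlinarith
  rw [hi]
  have a3 : G ≤ 1 + 4 / 100 * C⁻¹ := by nlinarith
  rcases le_total (k0 + 4 * C * k1) (1 / 3) with h | h
  · rw [max_eq_right h]
    nlinarith
  · rw [max_eq_left h]
    have a4 : k0 + 4 * C * k1 ≤ 1 - 99 / 100 * C⁻¹ := by linarith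
    have a5 : (k0 + 4 * C * k1) * G ≤ (1 - 99 / 100 * C⁻¹) * (1 + 4 / 100 * C⁻¹) :=
      mul_le_mul a4 a3 hG0 (by linarith)
    nlinarith

private lemma LIST_prev {C Q G b : ℝ} (hC : 1 ≤ C) (hQ0 : 0 < Q) (hQ : C ^ 3 * Q ≤ 1 / 100)
    (hbk : b ≤ C * Q) (hb0 : 0 ≤ b) (hG : G ≤ 1 - 1 / (2 * C)) :
    G * (1 + 4 * b) ≤ 1 + 4 * C * Q := by
  have h1 : 0 < 1 / (2 * C) := by positivity
  have h2 : G ≤ 1 := by linarith
  nlinarith

/-- the main induction -/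
theorem LIST_main {η κ C Q : ℝ} (h : Good η κ C Q) (hQ : C ^ 3 * Q ≤ 1 / 100) :
    ∀ (L : List (ℂ × ℂ × ℂ)) (p : ℂ × ℂ), (∀ t ∈ L, Adm η t) → Near κ Q p →
      Near κ Q (orb Q L p) ∧ ∃ G : ℝ, 0 ≤ G ∧ G ≤ 1 + 4 * C * Q ∧
        (∀ u, nu (4 * C) (KK Q L p *ᵥ u) ≤ G * nu (4 * C) u) ∧ LIST_Inv C Q G L (orb Q L p) := by
  have hC := h.one_le
  have hQ0 := h.pos
  intro L
  induction L with
  | nil =>
    intro p _ hp
    refine ⟨hp, 1, by norm_num, ?_, fun u => ?_, rfl⟩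
    · have : 0 < 4 * C * Q := by positivity
      linarith
    · show nu (4 * C) ((1 : Matrix (Fin 2) (Fin 2) ℂ) *ᵥ u) ≤ _
      rw [Matrix.one_mulVec, one_mul]
  | cons t L1 ih =>
    intro p hL hp
    have ht : Adm η t := hL t (by simp)
    obtain ⟨hp1, G1, hG0, hG1, hK, hI⟩ := ih p (fun s hs => hL s (by simp [hs])) hp
    set o := orb Q L1 p with ho
    have hn : Near κ Q (step Q t o) := h.near t o ht hp1
    have hκ : κ * Q ≤ C * Q := mul_le_mul_of_nonneg_right h.κ_le hQ0.le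
    have hb1 : ‖o.1‖ ≤ C * Q := hp1.1.trans hκ
    have hb2 : ‖o.2‖ ≤ C * Q := hp1.2.trans hκ
    have hwall : ∀ s, Adm η s → ∀ z : ℂ, ‖z - v Q s‖ ≤ C * Q ^ 2 →
        ‖1 + z‖ ≤ 1 - Q / 2 + 2 * C * Q ^ 2 := by
      intro s hs z hz
      have h1 := h.v_wall s hs
      have h2 : 1 + z = (z - v Q s) + (1 + v Q s) := by ring
      rw [h2]
      exact (norm_add_le _ _).trans (by linarith)
    -- the alternatives for the previous list
    have hA : G1 * (1 + 4 * ‖o.2‖) ≤ 1 + 4 * C * Q ∨ ‖1 + o.2‖ ≤ 1 - Q / 2 + 2 * C * Q ^ 2 := by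
      cases L1 with
      | nil =>
        left
        have : G1 = 1 := hI
        rw [this, one_mul]
        linarith
      | cons s L2 =>
        have hs : Adm η s := hL s (by simp)
        obtain ⟨i1, i2, i3⟩ : LIST_Hd C Q G1 s o := hI
        by_cases c1 : s.2.1 = 1
        · exact Or.inl (i1 c1).1
        · by_cases c2 : s.1 = 1
          · exact Or.inr (hwall s hs _ (i2 c2).2)
          · exact Or.inl (LIST_prev hC hQ0 hQ hb2 (norm_nonneg _) (i3 c2 c1))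
    have hB : G1 * (1 + 4 * ‖o.1‖) ≤ 1 + 4 * C * Q ∨ ‖1 + o.1‖ ≤ 1 - Q / 2 + 2 * C * Q ^ 2 := by
      cases L1 with
      | nil =>
        left
        have : G1 = 1 := hI
        rw [this, one_mul]
        linarith
      | cons s L2 =>
        have hs : Adm η s := hL s (by simp)
        obtain ⟨i1, i2, i3⟩ : LIST_Hd C Q G1 s o := hI
        by_cases c1 : s.1 = 1
        · exact Or.inl (i2 c1).1
        · by_cases c2 : s.2.1 = 1
          · exact Or.inr (hwall s hs _ (i1 c2).2)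
          · exact Or.inl (LIST_prev hC hQ0 hQ hb1 (norm_nonneg _) (i3 c1 c2))
    set g := max (‖K Q t o 0 0‖ + 4 * C * ‖K Q t o 1 0‖) (1 / 3) with hg
    have hg0 : 0 ≤ g := le_trans (by norm_num) (le_max_right _ _)
    have hGG0 : 0 ≤ g * G1 := mul_nonneg hg0 hG0
    have hHd : LIST_Hd C Q (g * G1) t (step Q t o) := by
      refine ⟨fun c => ⟨?_, ?_⟩, fun c => ⟨?_, ?_⟩, fun c1 c2 => ?_⟩
      · exact LIST_single hC hQ0 hQ rfl hb2 (norm_nonneg _) (h.stepA t o ht hp1 c).2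
          (h.KA t o ht hp1 c).1 (h.KA t o ht hp1 c).2 hG0 hG1 hA
      · exact (h.stepA t o ht hp1 c).1
      · exact LIST_single hC hQ0 hQ rfl hb1 (norm_nonneg _) (h.stepB t o ht hp1 c).2
          (h.KB t o ht hp1 c).1 (h.KB t o ht hp1 c).2 hG0 hG1 hB
      · exact (h.stepB t o ht hp1 c).1
      · exact LIST_double hC hQ0 hQ (h.KD t o ht hp1 c1 c2) (h.K10 t o ht hp1) hG0 hG1
    refine ⟨hn, g * G1, hGG0, ?_, fun u => ?_, hHd⟩
    · obtain ⟨i1, i2, i3⟩ := hHd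
      by_cases c1 : t.2.1 = 1
      · refine le_trans ?_ (i1 c1).1
        exact le_mul_of_one_le_right hGG0 (by linarith [norm_nonneg (step Q t o).2])
      · by_cases c2 : t.1 = 1
        · refine le_trans ?_ (i2 c2).1
          exact le_mul_of_one_le_right hGG0 (by linarith [norm_nonneg (step Q t o).1])
        · have h1 := i3 c2 c1
          have h2 : 0 < 1 / (2 * C) := by positivity
          have h3 : 0 < 4 * C * Q := by positivity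
          linarith
    · show nu (4 * C) ((K Q t o * KK Q L1 p) *ᵥ u) ≤ _
      rw [← Matrix.mulVec_mulVec]
      have h1 := LIST_blk h hQ t o ht hp1 (KK Q L1 p *ᵥ u)
      have h2 := mul_le_mul_of_nonneg_left (hK u) hg0
      calc _ ≤ g * nu (4 * C) (KK Q L1 p *ᵥ u) := h1
        _ ≤ g * (G1 * nu (4 * C) u) := h2
        _ = g * G1 * nu (4 * C) u := by ring

/-- **Module U4_LIST** -/
theorem thm_List : St_List := by
  intro η κ C _
  have hM : 1 ≤ max C 1 := le_max_right _ _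
  have hM0 : 0 < max C 1 := by linarith
  refine ⟨4 * max C 1, 1 / (100 * max C 1 ^ 3), by positivity, by linarith, ?_⟩
  intro Q hQ1 h L p hL hp
  have hC := h.one_le
  have hQ0 := h.pos
  have hCM : max C 1 = C := max_eq_left hC
  rw [hCM] at hQ1 ⊢
  have hQ : C ^ 3 * Q ≤ 1 / 100 := by
    have h1 : 0 < 100 * C ^ 3 := by positivity
    rw [lt_div_iff₀ h1] at hQ1
    linarith
  obtain ⟨q2, q1, q0⟩ := LIST_CQ hC hQ0 hQ
  obtain ⟨-, G, hG0, hG1, hK, hI⟩ := LIST_main h hQ L p hL hp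
  have hnu : ∀ u : Fin 2 → ℂ, 0 ≤ nu (4 * C) u := fun u => by
    unfold nu
    positivity
  refine ⟨fun u => (hK u).trans (mul_le_mul_of_nonneg_right hG1 (hnu u)), ?_⟩
  rintro t L' rfl c1 c2
  have ht : Adm η t := hL t (by simp)
  obtain ⟨-, -, i3⟩ : LIST_Hd C Q G t (orb Q (t :: L') p) := hI
  have hG := i3 c1 c2
  obtain ⟨ho, G', hG'0, hG'1, hK', -⟩ := LIST_main h hQ L' p (fun s hs => hL s (by simp [hs])) hp
  set o := orb Q L' p with hoe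
  have col : ∀ (M : Matrix (Fin 2) (Fin 2) ℂ) (j : Fin 2),
      M *ᵥ Pi.single j 1 = fun i => M i j := by
    intro M j
    rw [Matrix.mulVec_single_one]
    rfl
  -- the first diagonal entry
  have d0 : ‖KK Q (t :: L') p 0 0‖ ≤ 1 - 1 / (2 * C) := by
    have h1 := hK (Pi.single 0 1)
    rw [col] at h1
    unfold nu at h1
    simp only [Pi.single_eq_same, norm_one] at h1
    have h2 : (Pi.single (0 : Fin 2) (1 : ℂ) : Fin 2 → ℂ) 1 = 0 := by simp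
    rw [h2, norm_zero, mul_zero, add_zero, mul_one] at h1
    have h3 : 0 ≤ 4 * C * ‖KK Q (t :: L') p 1 0‖ := by positivity
    linarith
  -- the second column of the rest
  have d1 : ‖KK Q L' p 0 1‖ + 4 * C * ‖KK Q L' p 1 1‖ ≤ 2 * (4 * C) := by
    have h1 := hK' (Pi.single 1 1)
    rw [col] at h1
    unfold nu at h1
    have h2 : (Pi.single (1 : Fin 2) (1 : ℂ) : Fin 2 → ℂ) 0 = 0 := by simp
    simp only [Pi.single_eq_same, norm_one] at h1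
    rw [h2, norm_zero, zero_add, mul_one] at h1
    have h4 : G' ≤ 2 := by linarith
    have h5 : G' * (4 * C) ≤ 2 * (4 * C) := mul_le_mul_of_nonneg_right h4 (by linarith)
    linarith
  have e01 : ‖KK Q L' p 0 1‖ ≤ 8 * C := by
    have : 0 ≤ 4 * C * ‖KK Q L' p 1 1‖ := by positivity
    linarith
  have e11 : ‖KK Q L' p 1 1‖ ≤ 2 := by
    have h1 : 0 ≤ ‖KK Q L' p 0 1‖ := norm_nonneg _
    have h2 : 4 * C * ‖KK Q L' p 1 1‖ ≤ 4 * C * 2 := by linarith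
    exact le_of_mul_le_mul_left h2 (by linarith)
  have d2 : ‖KK Q (t :: L') p 1 1‖ ≤ C * Q ^ 2 * (8 * C) + C * Q ^ 2 * 2 := by
    have h1 : KK Q (t :: L') p 1 1 = K Q t o 1 0 * KK Q L' p 0 1 + K Q t o 1 1 * KK Q L' p 1 1 := by
      show (K Q t o * KK Q L' p) 1 1 = _
      rw [Matrix.mul_apply, Fin.sum_univ_two]
    rw [h1]
    refine (norm_add_le _ _).trans (add_le_add ?_ ?_)
    · rw [norm_mul]
      exact mul_le_mul (h.K10 t o ht ho) e01 (norm_nonneg _) (by positivity)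
    · rw [norm_mul]
      exact mul_le_mul (h.K11 t o ht ho) e11 (norm_nonneg _) (by positivity)
  have hC0 : 0 < C := by linarith
  have hi : 1 / (2 * C) = C⁻¹ / 2 := by
    rw [one_div, mul_inv]
    ring
  have hi4 : (4 * C)⁻¹ = C⁻¹ / 4 := by
    rw [mul_inv]
    ring
  have hi0 : 0 < C⁻¹ := inv_pos.2 hC0
  have a1 : C * Q ≤ C⁻¹ / 100 := by
    have : C * Q * C ≤ 1 / 100 := by nlinarith
    rw [le_div_iff₀ (by norm_num : (0 : ℝ) < 100)]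
    have h2 : C * Q * 100 = C * Q * C * 100 * C⁻¹ := by
      field_simp
    rw [h2]
    have : C * Q * C * 100 ≤ 1 := by linarith
    nlinarith
  have a2 : C * Q ^ 2 * (8 * C) + C * Q ^ 2 * 2 ≤ C⁻¹ / 4 := by
    have b3 : (C * Q) * (C * Q) ≤ 1 / 100 * (C⁻¹ / 100) := by
      apply mul_le_mul q1 a1 (by positivity) (by norm_num)
    have b4 : Q * (C * Q) ≤ 1 / 100 * (C⁻¹ / 100) := by
      apply mul_le_mul q0 a1 (by positivity) (by norm_num)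
    nlinarith
  have htr : (KK Q (t :: L') p).trace = KK Q (t :: L') p 0 0 + KK Q (t :: L') p 1 1 := by
    rw [Matrix.trace_fin_two]
  rw [htr, hi4]
  refine (norm_add_le _ _).trans ?_
  rw [hi] at d0
  linarith

end Pool.Agent.FB.U4
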