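import Pool.Agent.FB.U4.LOC
import Pool.Agent.FB.U4.LIST
import Pool.Agent.FB.U4.HERM
import Pool.Agent.FB.U4.COMB

/-!
# FB/U4/FINAL: assembly of `St_U4`
-/

set_option autoImplicit false

open Matrix

namespace Pool.Agent.FB.U4

private theorem EE_rot {Q : ℝ} {L L' : List (ℂ × ℂ × ℂ)} (h : L ~r L') : EE Q L = EE Q L' := by
  obtain ⟨n, rfl⟩ := h
  have key : ∀ {m : ℕ} (f : ℂ × ℂ × ℂ → Matrix (Fin m) (Fin m) ℂ),
      (L.map f).prod.trace = ((L.rotate n).map f).prod.trace := by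
    intro m f
    rcases List.eq_nil_or_concat L with h0 | _
    · subst h0; simp
    · have h1 := List.rotate_eq_drop_append_take_mod (l := L) (n := n)
      rw [h1, List.map_append, List.prod_append, Matrix.trace_mul_comm, ← List.prod_append,
        ← List.map_append, List.take_append_drop]
  simp only [EE]
  rw [key (T3 Q), key (T2 Q)]

private theorem orb_near {η κ C Q : ℝ} (G : Good η κ C Q) {p : ℂ × ℂ} (hp : Near κ Q p) :
    ∀ L : List (ℂ × ℂ × ℂ), (∀ t ∈ L, Adm η t) → Near κ Q (orb Q L p)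
  | [], _ => by simpa [orb] using hp
  | t :: L, h => by
      have := orb_near G hp L (fun u hu => h u (List.mem_cons_of_mem _ hu))
      exact G.near t _ (h t List.mem_cons_self) this

private theorem lam_ge' {η κ C Q : ℝ} (G : Good η κ C Q) {p : ℂ × ℂ} (hp : Near κ Q p) :
    ∀ L : List (ℂ × ℂ × ℂ), (∀ t ∈ L, Adm η t) → ((C * Q)⁻¹) ^ L.length ≤ ‖lam Q L p‖
  | [], _ => by simp [lam]
  | t :: L, h => by
      have h1 := lam_ge' G hp L (fun u hu => h u (List.mem_cons_of_mem _ hu))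
      have h2 := orb_near G hp L (fun u hu => h u (List.mem_cons_of_mem _ hu))
      have h3 := G.lam_ge t _ (h t List.mem_cons_self) h2
      have hC : 0 < (C * Q)⁻¹ := inv_pos.2 (mul_pos (lt_of_lt_of_le one_pos G.one_le) G.pos)
      rw [lam, norm_mul, List.length_cons, pow_succ']
      exact mul_le_mul h3 h1 (by positivity) (norm_nonneg _)

/-- the estimate of `EE` from below -/
private theorem EE_ge (hP : St_Prod) {η κ C Q : ℝ} (G : Good η κ C Q) (hQ : Q < 1)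
    {L : List (ℂ × ℂ × ℂ)} (hL : L ≠ []) (hA : ∀ t ∈ L, Adm η t) {n : ℕ} (hn : n ≤ L.length)
    (h4 : 4 ≤ ((C * Q)⁻¹) ^ n) (h1 : 1 ≤ (C * Q)⁻¹) {δ : ℝ} (hδ : 0 ≤ δ)
    (hK : ∀ p, Near κ Q p → orb Q L p = p → δ ≤ ‖(1 - Q : ℂ) - (KK Q L p).trace‖) :
    ((C * Q)⁻¹) ^ n * δ - 4 ≤ ‖EE Q L‖ := by
  obtain ⟨p, hp, ho, e3, e2⟩ := hP η κ C Q G L hL hA
  have hl : ((C * Q)⁻¹) ^ n ≤ ‖lam Q L p‖ :=
    (pow_le_pow_right₀ h1 hn).trans (lam_ge' G hp L hA)
  have hw : (![1 + p.1, 1 + p.2, 1] : Fin 3 → ℂ) ≠ 0 := by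
    intro h
    have := congrFun h 2
    simp at this
  have hH := thm_Herm Q L (lam Q L p) _ G.pos hQ
    (fun t ht => ⟨(hA t ht).1, (hA t ht).2.1, (hA t ht).2.2.1⟩) hw e3 (h4.trans hl)
  have hk := hK p hp ho
  have e : EE Q L = -(lam Q L p * ((1 - Q : ℂ) - (KK Q L p).trace)) + (((Q : ℂ) ^ 2 - 3 * Q + 1) -
      (1 - (Q : ℂ)) * ((L.map (T3 Q)).prod.trace - lam Q L p)) := by
    rw [EE, e2]
    ring
  have a1 : ‖((Q : ℂ) ^ 2 - 3 * Q + 1)‖ ≤ 1 := by
    have : ((Q : ℂ) ^ 2 - 3 * Q + 1) = ((Q ^ 2 - 3 * Q + 1 : ℝ) : ℂ) := by push_cast; ring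
    rw [this, Complex.norm_real, Real.norm_eq_abs, abs_le]
    have := G.pos
    constructor <;> nlinarith
  have a2 : ‖(1 - (Q : ℂ))‖ ≤ 1 := by
    have : (1 - (Q : ℂ)) = ((1 - Q : ℝ) : ℂ) := by push_cast; ring
    rw [this, Complex.norm_real, Real.norm_eq_abs, abs_le]
    have := G.pos
    constructor <;> linarith
  have a3 : ‖(((Q : ℂ) ^ 2 - 3 * Q + 1) -
      (1 - (Q : ℂ)) * ((L.map (T3 Q)).prod.trace - lam Q L p))‖ ≤ 4 := by
    refine (norm_sub_le _ _).trans ?_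
    rw [norm_mul]
    have : ‖(1 - (Q : ℂ))‖ * ‖(L.map (T3 Q)).prod.trace - lam Q L p‖ ≤ 1 * 3 := by gcongr
    linarith
  have a4 : ((C * Q)⁻¹) ^ n * δ ≤ ‖lam Q L p * ((1 - Q : ℂ) - (KK Q L p).trace)‖ := by
    rw [norm_mul]
    exact mul_le_mul hl hk hδ (norm_nonneg _)
  rw [e]
  have a5 : ‖lam Q L p * ((1 - Q : ℂ) - (KK Q L p).trace)‖ - ‖(((Q : ℂ) ^ 2 - 3 * Q + 1) -
      (1 - (Q : ℂ)) * ((L.map (T3 Q)).prod.trace - lam Q L p))‖ ≤
      ‖-(lam Q L p * ((1 - Q : ℂ) - (KK Q L p).trace)) + (((Q : ℂ) ^ 2 - 3 * Q + 1) -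
      (1 - (Q : ℂ)) * ((L.map (T3 Q)).prod.trace - lam Q L p))‖ := by
    have := norm_sub_norm_le (lam Q L p * ((1 - Q : ℂ) - (KK Q L p).trace))
      ((((Q : ℂ) ^ 2 - 3 * Q + 1) - (1 - (Q : ℂ)) * ((L.map (T3 Q)).prod.trace - lam Q L p)))
    refine this.trans (le_of_eq ?_)
    rw [← norm_neg]
    congr 1
    ring
  linarith

private theorem length_flat {R : List (List (ℂ × ℂ × ℂ) × List (ℂ × ℂ × ℂ))} (hR : R ≠ [])
    (h : ∀ q ∈ R, Runs q) : 2 ≤ (R.map fun q => q.1 ++ q.2).flatten.length := by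
  cases R with
  | nil => exact absurd rfl hR
  | cons q R =>
    have hq := h q List.mem_cons_self
    have h1 : 1 ≤ q.1.length := List.length_pos_iff.2 hq.1
    have h2 : 1 ≤ q.2.length := List.length_pos_iff.2 hq.2.1
    simp only [List.map_cons, List.flatten_cons, List.length_append]
    omega

theorem Final_of (hP : St_Prod) (hAlt : St_Alt) : St_U4 := by
  intro η₀ B h0
  set η := min η₀ 1 with hη
  have hη0 : 0 < η := lt_min h0 one_pos
  have hη1 : η ≤ 1 := min_le_right _ _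
  have hηη : η ≤ η₀ := min_le_left _ _
  obtain ⟨κ, C, Q₀, hQ₀, hG⟩ := thm_Loc η hη0 hη1
  obtain ⟨C₁, Q₁, hQ₁, hC₁, hL1⟩ := thm_List η κ C hη0
  obtain ⟨C₂, Q₂, hQ₂, hC₂, hA2⟩ := hAlt η κ C hη0
  -- the constant `C` is at least one
  have hC : 1 ≤ C := (hG (Q₀ / 2) (by linarith) (by linarith)).one_le
  have hC0 : 0 < C := lt_of_lt_of_le one_pos hC
  set A := |B| + 8 with hAdef
  have hA8 : 8 ≤ A := by have := abs_nonneg B; linarith
  have hA0 : 0 < A := by linarith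
  refine ⟨min (min Q₀ (min Q₁ Q₂)) (1 / (4 * C ^ 2 * C₁ * C₂ * A)), by positivity, ?_⟩
  intro Q hQ hQlt L hL hF
  have q0 : Q < Q₀ := lt_of_lt_of_le hQlt ((min_le_left _ _).trans (min_le_left _ _))
  have q1 : Q < Q₁ := lt_of_lt_of_le hQlt ((min_le_left _ _).trans
    ((min_le_right _ _).trans (min_le_left _ _)))
  have q2 : Q < Q₂ := lt_of_lt_of_le hQlt ((min_le_left _ _).trans
    ((min_le_right _ _).trans (min_le_right _ _)))
  have q3 : Q < 1 / (4 * C ^ 2 * C₁ * C₂ * A) := lt_of_lt_of_le hQlt (min_le_right _ _)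
  have G := hG Q hQ q0
  have hC1' : 0 < C₁ := lt_of_lt_of_le one_pos hC₁
  have hC2' : 0 < C₂ := lt_of_lt_of_le one_pos hC₂
  have q4 : 4 * C ^ 2 * C₁ * C₂ * A * Q < 1 := by
    rw [lt_div_iff₀ (by positivity)] at q3
    linarith
  have qQ : Q * (4 * A) < 1 := by
    have h1 : 1 ≤ C ^ 2 * C₁ * C₂ := by
      have := one_le_pow₀ (n := 2) hC
      have h3 := one_le_mul_of_one_le_of_one_le this hC₁
      exact one_le_mul_of_one_le_of_one_le h3 hC₂
    have h2 : Q * (4 * A) * 1 ≤ Q * (4 * A) * (C ^ 2 * C₁ * C₂) := by gcongr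
    nlinarith
  have hQ1 : Q < 1 := by nlinarith
  have hCQ : 4 ≤ (C * Q)⁻¹ := by
    rw [le_inv_comm₀ (by norm_num) (by positivity)]
    have h1 : 1 ≤ C * C₁ * C₂ := one_le_mul_of_one_le_of_one_le
      (one_le_mul_of_one_le_of_one_le hC hC₁) hC₂
    have h2 : C * Q * (4 * A) * 1 ≤ C * Q * (4 * A) * (C * C₁ * C₂) := by gcongr
    have h3 : C * Q * (4 * A) < 1 := by nlinarith
    have : C * Q * 4 ≤ C * Q * (4 * A) := by
      have : (4 : ℝ) ≤ 4 * A := by linarith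
      gcongr
    norm_num
    linarith
  have hCQ1 : 1 ≤ (C * Q)⁻¹ := by linarith
  have hAdm : ∀ t ∈ L, Adm η t := by
    intro t ht
    obtain ⟨a1, a2, a3, a4, a5, a6, a7⟩ := hF.1 t ht
    exact ⟨a1, a2, a3, a4.imp_right hηη.trans, a5.imp_right hηη.trans, a6, hηη.trans a7⟩
  have hB : B ≤ |B| := le_abs_self B
  by_cases hd : ∃ t ∈ L, t.1 ≠ 1 ∧ t.2.1 ≠ 1
  · -- a double block
    obtain ⟨t, ht, hx, hy⟩ := hd
    obtain ⟨P, S, rfl⟩ := List.append_of_mem ht
    have hr : (P ++ t :: S) ~r (t :: S ++ P) := List.isRotated_append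
    rw [EE_rot hr]
    have hA' : ∀ u ∈ t :: S ++ P, Adm η u := fun u hu => hAdm u ((hr.mem_iff).2 hu)
    have hδ : ∀ p, Near κ Q p → orb Q (t :: S ++ P) p = p →
        1 / (2 * C₁) ≤ ‖(1 - Q : ℂ) - (KK Q (t :: S ++ P) p).trace‖ := by
      intro p hp _
      have h1 := (hL1 Q q1 G (t :: S ++ P) p hA' hp).2 t (S ++ P) rfl hx hy
      have h2 : ‖(1 - Q : ℂ)‖ = 1 - Q := by
        have : (1 - (Q : ℂ)) = ((1 - Q : ℝ) : ℂ) := by push_cast; ring
        rw [this, Complex.norm_real, Real.norm_of_nonneg (by linarith)]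
      have h3 := norm_sub_norm_le (1 - Q : ℂ) ((KK Q (t :: S ++ P) p).trace)
      have h4 : Q ≤ 1 / (2 * C₁) := by
        rw [le_div_iff₀ (by positivity)]
        have h5 : 1 ≤ 2 * C ^ 2 * C₂ * A := by
          have e1 := one_le_mul_of_one_le_of_one_le (one_le_pow₀ (n := 2) hC) hC₂
          nlinarith
        have h6 : Q * (2 * C₁) * 1 ≤ Q * (2 * C₁) * (2 * C ^ 2 * C₂ * A) := by gcongr
        nlinarith
      have h7 : C₁⁻¹ = 2 * (1 / (2 * C₁)) := by field_simp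
      linarith
    have := EE_ge hP G hQ1 (show t :: S ++ P ≠ [] from List.cons_ne_nil _ _) hA' (n := 1) (by simp) (by simpa using hCQ) hCQ1
      (by positivity) hδ
    have h8 : ((C * Q)⁻¹) ^ 1 * (1 / (2 * C₁)) = 1 / (2 * C * C₁ * Q) := by
      field_simp
    have h9 : A ≤ 1 / (2 * C * C₁ * Q) := by
      rw [le_div_iff₀ (by positivity)]
      have h5 : 1 ≤ 2 * C * C₂ := by nlinarith [one_le_mul_of_one_le_of_one_le hC hC₂]
      have h6 : A * (2 * C * C₁ * Q) * 1 ≤ A * (2 * C * C₁ * Q) * (2 * C * C₂) := by gcongr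
      nlinarith
    rw [h8] at this
    linarith
  · -- no double block
    push Not at hd
    have hd' : ∀ t ∈ L, t.1 = 1 ∨ t.2.1 = 1 := fun t ht => by
      by_cases h : t.1 = 1
      · exact Or.inl h
      · exact Or.inr (hd t ht h)
    have ex1 : ∃ t ∈ L, t.1 ≠ 1 := by
      by_contra hcon
      push Not at hcon
      exact hF.2.2.1 ⟨hL, by simpa using hcon⟩
    have ex2 : ∃ t ∈ L, t.2.1 ≠ 1 := by
      by_contra hcon
      push Not at hcon
      exact hF.2.1 ⟨hL, by simpa using hcon⟩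
    obtain ⟨R, hR, hRr, hrot⟩ := thm_Comb L hd' ex1 ex2
    have hlen := length_flat hR hRr
    have hA' : ∀ u ∈ (R.map fun q => q.1 ++ q.2).flatten, Adm η u :=
      fun u hu => hAdm u ((hrot.mem_iff).2 hu)
    have hne : (R.map fun q => q.1 ++ q.2).flatten ≠ [] := by
      intro h; rw [h] at hlen; simp at hlen
    have h4 : (4 : ℝ) ≤ ((C * Q)⁻¹) ^ 2 := by nlinarith
    have hδ : ∀ p, Near κ Q p → orb Q (R.map fun q => q.1 ++ q.2).flatten p = p →
        1 / (2 * C₂) * Q ≤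
          ‖(1 - Q : ℂ) - (KK Q (R.map fun q => q.1 ++ q.2).flatten p).trace‖ := by
      intro p hp ho
      have i1 : 1 / (2 * C₂) ≤ 1 / 2 := by
        apply one_div_le_one_div_of_le (by norm_num)
        linarith
      by_cases h2 : 2 ≤ R.length
      · have h1 := (hA2 Q q2 G).1 R p h2 hRr (fun q hq t ht => hA' t (by
          rw [List.mem_flatten]
          exact ⟨q.1 ++ q.2, List.mem_map.2 ⟨q, hq, rfl⟩, ht⟩)) hp ho
        have h3 : ‖(1 - Q : ℂ)‖ = 1 - Q := by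
          have : (1 - (Q : ℂ)) = ((1 - Q : ℝ) : ℂ) := by push_cast; ring
          rw [this, Complex.norm_real, Real.norm_of_nonneg (by linarith)]
        have h5 := norm_sub_norm_le (1 - Q : ℂ)
          ((KK Q (R.map fun q => q.1 ++ q.2).flatten p).trace)
        have h6 : 1 / (2 * C₂) * Q ≤ 1 / 2 * Q := by gcongr
        linarith
      · have hR1 : R.length = 1 := by
          have : R.length ≠ 0 := by simpa using hR
          omega
        obtain ⟨q, rfl⟩ := List.length_eq_one_iff.1 hR1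
        obtain ⟨X', Y'⟩ := q
        have hq := hRr (X', Y') List.mem_cons_self
        obtain ⟨s, P, rfl⟩ := List.exists_cons_of_ne_nil hq.1
        obtain ⟨t, S, rfl⟩ := List.exists_cons_of_ne_nil hq.2.1
        have ef : (List.map (fun q : List (ℂ × ℂ × ℂ) × List (ℂ × ℂ × ℂ) => q.1 ++ q.2)
          [(s :: P, t :: S)]).flatten = s :: P ++ t :: S := by simp
        rw [ef] at hA' ho hrot ⊢
        have hfar : η ≤ ‖s.2.2 * t.2.2 - 1‖ := hηη.trans (hF.2.2.2 s t P S hrot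
          ⟨List.cons_ne_nil _ _, by simpa using hq.2.2.1⟩
          ⟨List.cons_ne_nil _ _, by simpa using hq.2.2.2⟩)
        have h1 := (hA2 Q q2 G).2 s t P S p hq hA' hp ho hfar
        have h6 : 1 / (2 * C₂) * Q ≤ C₂⁻¹ * Q := by
          rw [← one_div]
          gcongr
          linarith
        linarith
    have := EE_ge hP G hQ1 hne hA' (n := 2) hlen h4 hCQ1 (by positivity) hδ
    rw [EE_rot hrot]
    have h8 : ((C * Q)⁻¹) ^ 2 * (1 / (2 * C₂) * Q) = 1 / (2 * C ^ 2 * C₂ * Q) := by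
      field_simp
    have h9 : A ≤ 1 / (2 * C ^ 2 * C₂ * Q) := by
      rw [le_div_iff₀ (by positivity)]
      have h6 : A * (2 * C ^ 2 * C₂ * Q) * 1 ≤ A * (2 * C ^ 2 * C₂ * Q) * (2 * C₁) := by
        gcongr
        linarith
      nlinarith
    rw [h8] at this
    linarith

end Pool.Agent.FB.U4
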