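import Pool.Agent.FB.U4St

/-!
# FB/U4/LOC: the local estimates
-/

set_option autoImplicit false

open Matrix

namespace Pool.Agent.FB.U4

/-- `2 Re (1 - x) = |1 - x|²` on the unit circle -/
private theorem re_one_sub {x : ℂ} (hx : ‖x‖ = 1) : 2 * (1 - x.re) = ‖x - 1‖ ^ 2 := by
  have h1 : x.re ^ 2 + x.im ^ 2 = 1 := by
    have := Complex.normSq_apply x
    rw [Complex.normSq_eq_norm_sq, hx] at this
    nlinarith
  have h2 : ‖x - 1‖ ^ 2 = (x.re - 1) ^ 2 + x.im ^ 2 := by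
    rw [← Complex.normSq_eq_norm_sq, Complex.normSq_apply]
    simp
    ring
  rw [h2]
  nlinarith

private theorem norm_sub_one_le {x : ℂ} (hx : ‖x‖ = 1) : ‖x - 1‖ ≤ 2 := by
  calc ‖x - 1‖ ≤ ‖x‖ + ‖(1 : ℂ)‖ := norm_sub_le _ _
    _ = 2 := by rw [hx, norm_one]; norm_num

private theorem sum_ge {η : ℝ} {t : ℂ × ℂ × ℂ} (h0 : 0 < η) (ht : Adm η t) :
    η ^ 2 / 2 ≤ ‖t.1 + t.2.1 - 2‖ := by
  obtain ⟨hx, hy, hz, h1, h2, h3, h4⟩ := ht
  have e1 := re_one_sub hx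
  have e2 := re_one_sub hy
  have h5 : 2 - t.1.re - t.2.1.re ≤ ‖t.1 + t.2.1 - 2‖ := by
    have := Complex.abs_re_le_norm (t.1 + t.2.1 - 2)
    have h6 : (t.1 + t.2.1 - 2).re = t.1.re + t.2.1.re - 2 := by simp
    rw [h6] at this
    have := (abs_le.1 this).1
    linarith
  have h7 : η ^ 2 ≤ ‖t.1 - 1‖ ^ 2 + ‖t.2.1 - 1‖ ^ 2 := by
    rcases h1 with h1 | h1
    · rcases h2 with h2 | h2
      · exact absurd ⟨h1, h2⟩ h3
      · have : η ^ 2 ≤ ‖t.2.1 - 1‖ ^ 2 := by gcongr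
        nlinarith [sq_nonneg ‖t.1 - 1‖]
    · have : η ^ 2 ≤ ‖t.1 - 1‖ ^ 2 := by gcongr
      nlinarith [sq_nonneg ‖t.2.1 - 1‖]
  nlinarith

private theorem v_norm {η Q : ℝ} {t : ℂ × ℂ × ℂ} (h0 : 0 < η) (hQ : 0 < Q) (ht : Adm η t) :
    ‖v Q t‖ ≤ Q / η ∧ v Q t ≠ 0 := by
  obtain ⟨hx, hy, hz, h1, h2, h3, h4⟩ := ht
  have h5 : 0 < ‖t.2.2 - 1‖ := lt_of_lt_of_le h0 h4
  constructor
  · rw [v, norm_div, Complex.norm_real, Real.norm_of_nonneg hQ.le]
    exact div_le_div_of_nonneg_left hQ.le h0 h4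
  · rw [v]
    exact div_ne_zero (by exact_mod_cast hQ.ne') (norm_pos_iff.1 h5)

private theorem v_wall' {η Q : ℝ} {t : ℂ × ℂ × ℂ} (h0 : 0 < η) (hQ : 0 < Q) (ht : Adm η t) :
    ‖1 + v Q t‖ ^ 2 ≤ 1 - Q + Q ^ 2 / η ^ 2 := by
  have hv := v_norm h0 hQ ht
  obtain ⟨hx, hy, hz, h1, h2, h3, h4⟩ := ht
  have h5 : 0 < ‖t.2.2 - 1‖ := lt_of_lt_of_le h0 h4
  have e := re_one_sub hz
  have h6 : (v Q t).re = - Q / 2 := by
    rw [v, Complex.div_re]
    simp only [Complex.ofReal_re, Complex.ofReal_im, Complex.sub_re, Complex.one_re, zero_mul,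
      zero_div, add_zero]
    rw [Complex.normSq_eq_norm_sq]
    have : t.2.2.re - 1 = - ‖t.2.2 - 1‖ ^ 2 / 2 := by linarith
    rw [this]
    field_simp
  have h7 : ‖1 + v Q t‖ ^ 2 = 1 + 2 * (v Q t).re + ‖v Q t‖ ^ 2 := by
    rw [← Complex.normSq_eq_norm_sq, ← Complex.normSq_eq_norm_sq, Complex.normSq_apply,
      Complex.normSq_apply]
    simp
    ring
  rw [h7, h6]
  have h8 : ‖v Q t‖ ^ 2 ≤ (Q / η) ^ 2 := by
    gcongr
    exact hv.1
  rw [div_pow] at h8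
  linarith

/-- `|2 - x - y|² - |1 - x y|² = |1 - x|² |1 - y|²` -/
private theorem double_id {x y : ℂ} (hx : ‖x‖ = 1) (hy : ‖y‖ = 1) :
    ‖x * y - 1‖ ^ 2 = ‖x + y - 2‖ ^ 2 - ‖x - 1‖ ^ 2 * ‖y - 1‖ ^ 2 := by
  have h1 : x.re ^ 2 + x.im ^ 2 = 1 := by
    have := Complex.normSq_apply x
    rw [Complex.normSq_eq_norm_sq, hx] at this
    nlinarith
  have h2 : y.re ^ 2 + y.im ^ 2 = 1 := by
    have := Complex.normSq_apply y
    rw [Complex.normSq_eq_norm_sq, hy] at this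
    nlinarith
  simp only [← Complex.normSq_eq_norm_sq, Complex.normSq_apply]
  simp
  have e1 : x.im ^ 2 = 1 - x.re ^ 2 := by linarith
  have e2 : y.im ^ 2 = 1 - y.re ^ 2 := by linarith
  ring_nf
  simp only [e1, e2]
  ring

/-- the basic bounds -/
private theorem basic {η Q : ℝ} {t : ℂ × ℂ × ℂ} {p : ℂ × ℂ} (h0 : 0 < η) (h1 : η ≤ 1) (hQ : 0 < Q)
    (hQ' : Q < η ^ 11 / 100000) (ht : Adm η t) (hp : Near (16 / η ^ 3) Q p) :
    ‖v Q t‖ ≤ Q / η ∧ v Q t ≠ 0 ∧ ‖p.1‖ ≤ 1 ∧ ‖p.2‖ ≤ 1 ∧ ‖X t p‖ ≤ 3 ∧ ‖Y t p‖ ≤ 3 ∧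
    η ^ 2 / 4 ≤ ‖N Q t p‖ ∧ ‖N Q t p - (t.1 + t.2.1 - 2)‖ ≤ 34 / η ^ 3 * Q := by
  obtain ⟨hv, hv0⟩ := v_norm h0 hQ ht
  have hs := sum_ge h0 ht
  obtain ⟨hx, hy, hz, -, -, -, -⟩ := ht
  have hk : 16 / η ^ 3 * Q ≤ 1 := by
    rw [div_mul_eq_mul_div, div_le_one (by positivity)]
    have : η ^ 11 ≤ η ^ 3 := pow_le_pow_of_le_one h0.le h1 (by norm_num)
    linarith
  have hp1 : ‖p.1‖ ≤ 1 := hp.1.trans hk
  have hp2 : ‖p.2‖ ≤ 1 := hp.2.trans hk
  have hX : ‖X t p‖ ≤ 3 := by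
    calc ‖X t p‖ ≤ ‖t.1 * (1 + p.1)‖ + ‖(1 : ℂ)‖ := norm_sub_le _ _
      _ = ‖1 + p.1‖ + 1 := by rw [norm_mul, hx, one_mul, norm_one]
      _ ≤ (‖(1 : ℂ)‖ + ‖p.1‖) + 1 := by gcongr; exact norm_add_le _ _
      _ ≤ 3 := by rw [norm_one]; linarith
  have hY : ‖Y t p‖ ≤ 3 := by
    calc ‖Y t p‖ ≤ ‖t.2.1 * (1 + p.2)‖ + ‖(1 : ℂ)‖ := norm_sub_le _ _
      _ = ‖1 + p.2‖ + 1 := by rw [norm_mul, hy, one_mul, norm_one]
      _ ≤ (‖(1 : ℂ)‖ + ‖p.2‖) + 1 := by gcongr; exact norm_add_le _ _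
      _ ≤ 3 := by rw [norm_one]; linarith
  have hd : ‖N Q t p - (t.1 + t.2.1 - 2)‖ ≤ 34 / η ^ 3 * Q := by
    have e : N Q t p - (t.1 + t.2.1 - 2) = v Q t + Q + (t.1 * p.1 + t.2.1 * p.2) := by
      rw [N, X, Y]; ring
    have a1 : ‖t.1 * p.1‖ ≤ 16 / η ^ 3 * Q := by rw [norm_mul, hx, one_mul]; exact hp.1
    have a2 : ‖t.2.1 * p.2‖ ≤ 16 / η ^ 3 * Q := by rw [norm_mul, hy, one_mul]; exact hp.2
    have a3 : ‖(Q : ℂ)‖ = Q := by rw [Complex.norm_real, Real.norm_of_nonneg hQ.le]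
    have a4 : Q / η ≤ 1 / η ^ 3 * Q := by
      rw [div_eq_mul_inv, mul_comm, ← one_div]
      gcongr ?_ * Q
      apply one_div_le_one_div_of_le (by positivity)
      exact pow_le_of_le_one h0.le h1 (by norm_num)
    have a5 : Q ≤ 1 / η ^ 3 * Q := by
      have : 1 ≤ 1 / η ^ 3 := by
        rw [le_div_iff₀ (by positivity), one_mul]
        exact pow_le_one₀ h0.le h1
      nlinarith
    rw [e]
    calc ‖v Q t + Q + (t.1 * p.1 + t.2.1 * p.2)‖
        ≤ ‖v Q t + Q‖ + ‖t.1 * p.1 + t.2.1 * p.2‖ := norm_add_le _ _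
      _ ≤ (‖v Q t‖ + ‖(Q : ℂ)‖) + (‖t.1 * p.1‖ + ‖t.2.1 * p.2‖) := by
          gcongr <;> exact norm_add_le _ _
      _ ≤ (1 / η ^ 3 * Q + 1 / η ^ 3 * Q) + (16 / η ^ 3 * Q + 16 / η ^ 3 * Q) := by
          rw [a3]
          gcongr
          exact hv.trans a4
      _ = 34 / η ^ 3 * Q := by ring
  refine ⟨hv, hv0, hp1, hp2, hX, hY, ?_, hd⟩
  have h6 : 34 / η ^ 3 * Q ≤ η ^ 2 / 4 := by
    rw [div_mul_eq_mul_div, div_le_iff₀ (by positivity)]
    have : η ^ 11 ≤ η ^ 5 := pow_le_pow_of_le_one h0.le h1 (by norm_num)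
    nlinarith
  have h7 : ‖t.1 + t.2.1 - 2‖ ≤ ‖N Q t p‖ + ‖N Q t p - (t.1 + t.2.1 - 2)‖ := by
    calc ‖t.1 + t.2.1 - 2‖ = ‖N Q t p - (N Q t p - (t.1 + t.2.1 - 2))‖ := by ring_nf
      _ ≤ _ := norm_sub_le _ _
  linarith

/-- division by `N` -/
private theorem div_le' {η : ℝ} {a n : ℂ} {A : ℝ} (h0 : 0 < η) (ha : ‖a‖ ≤ A)
    (hn : η ^ 2 / 4 ≤ ‖n‖) : ‖a / n‖ ≤ 4 / η ^ 2 * A := by
  have hn0 : 0 < ‖n‖ := lt_of_lt_of_le (by positivity) hn
  have hA : 0 ≤ A := (norm_nonneg _).trans ha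
  rw [norm_div, div_le_iff₀ hn0]
  have h1 : 4 / η ^ 2 * A * (η ^ 2 / 4) ≤ 4 / η ^ 2 * A * ‖n‖ := by gcongr
  have h2 : 4 / η ^ 2 * A * (η ^ 2 / 4) = A := by field_simp
  linarith

theorem thm_Loc : St_Loc := by
  intro η h0 h1
  refine ⟨16 / η ^ 3, 10000 / η ^ 8, η ^ 11 / 100000, by positivity, ?_⟩
  intro Q hQ hQ'
  have B := fun (t : ℂ × ℂ × ℂ) (p : ℂ × ℂ) (ht : Adm η t) (hp : Near (16 / η ^ 3) Q p) =>
    basic h0 h1 hQ hQ' ht hp
  -- comparison of constants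
  have pw : ∀ a b : ℕ, a ≤ b → η ^ b ≤ η ^ a := fun a b h => pow_le_pow_of_le_one h0.le h1 h
  have pos : ∀ a : ℕ, 0 < η ^ a := fun a => pow_pos h0 a
  have C1 : (1 : ℝ) ≤ 10000 / η ^ 8 := by
    rw [le_div_iff₀ (pos 8)]
    nlinarith [pw 0 8 (by norm_num), pos 8]
  have cmp : ∀ (c : ℝ) (a : ℕ), 0 ≤ c → a ≤ 8 → c / η ^ a ≤ c / η ^ 8 := by
    intro c a hc ha
    exact div_le_div_of_nonneg_left hc (pos 8) (pw a 8 ha)
  have cmp' : ∀ (c : ℝ) (a : ℕ), 0 ≤ c → c ≤ 10000 → a ≤ 8 → c / η ^ a ≤ 10000 / η ^ 8 := by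
    intro c a hc hc' ha
    refine (cmp c a hc ha).trans ?_
    gcongr
  have hQ1 : Q ≤ 1 := by
    have := pw 0 11 (by norm_num)
    simp at this
    linarith
  have v_le : ∀ t, Adm η t → ‖v Q t‖ ≤ 1 / η * Q := by
    intro t ht
    have := (v_norm h0 hQ ht).1
    rw [one_div, mul_comm, ← div_eq_mul_inv]
    exact this
  -- the difference `N - X` (without `σ₃`) and `N - Y` (without `σ₁`)
  have dA : ∀ t p, Adm η t → Near (16 / η ^ 3) Q p → t.2.1 = 1 →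
      ‖N Q t p - X t p‖ ≤ 18 / η ^ 3 * Q ∧ Y t p = p.2 := by
    intro t p ht hp ht1
    have hY : Y t p = p.2 := by rw [Y, ht1]; ring
    refine ⟨?_, hY⟩
    have e : N Q t p - X t p = v Q t + Q + p.2 := by rw [N, hY]; ring
    have a3 : ‖(Q : ℂ)‖ = Q := by rw [Complex.norm_real, Real.norm_of_nonneg hQ.le]
    have a4 : 1 / η * Q ≤ 1 / η ^ 3 * Q := by
      gcongr ?_ * Q
      apply one_div_le_one_div_of_le (by positivity)
      exact pow_le_of_le_one h0.le h1 (by norm_num)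
    have a5 : Q ≤ 1 / η ^ 3 * Q := by
      have : 1 ≤ 1 / η ^ 3 := by
        rw [le_div_iff₀ (by positivity), one_mul]
        exact pow_le_one₀ h0.le h1
      nlinarith
    rw [e]
    calc ‖v Q t + Q + p.2‖ ≤ ‖v Q t + Q‖ + ‖p.2‖ := norm_add_le _ _
      _ ≤ (‖v Q t‖ + ‖(Q : ℂ)‖) + ‖p.2‖ := by gcongr; exact norm_add_le _ _
      _ ≤ (1 / η ^ 3 * Q + 1 / η ^ 3 * Q) + 16 / η ^ 3 * Q := by
          rw [a3]
          gcongr
          · exact (v_le t ht).trans a4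
          · exact hp.2
      _ = 18 / η ^ 3 * Q := by ring
  have dB : ∀ t p, Adm η t → Near (16 / η ^ 3) Q p → t.1 = 1 →
      ‖N Q t p - Y t p‖ ≤ 18 / η ^ 3 * Q ∧ X t p = p.1 := by
    intro t p ht hp ht1
    have hY : X t p = p.1 := by rw [X, ht1]; ring
    refine ⟨?_, hY⟩
    have e : N Q t p - Y t p = v Q t + Q + p.1 := by rw [N, hY]; ring
    have a3 : ‖(Q : ℂ)‖ = Q := by rw [Complex.norm_real, Real.norm_of_nonneg hQ.le]
    have a4 : 1 / η * Q ≤ 1 / η ^ 3 * Q := by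
      gcongr ?_ * Q
      apply one_div_le_one_div_of_le (by positivity)
      exact pow_le_of_le_one h0.le h1 (by norm_num)
    have a5 : Q ≤ 1 / η ^ 3 * Q := by
      have : 1 ≤ 1 / η ^ 3 := by
        rw [le_div_iff₀ (by positivity), one_mul]
        exact pow_le_one₀ h0.le h1
      nlinarith
    rw [e]
    calc ‖v Q t + Q + p.1‖ ≤ ‖v Q t + Q‖ + ‖p.1‖ := norm_add_le _ _
      _ ≤ (‖v Q t‖ + ‖(Q : ℂ)‖) + ‖p.1‖ := by gcongr; exact norm_add_le _ _
      _ ≤ (1 / η ^ 3 * Q + 1 / η ^ 3 * Q) + 16 / η ^ 3 * Q := by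
          rw [a3]
          gcongr
          · exact (v_le t ht).trans a4
          · exact hp.1
      _ = 18 / η ^ 3 * Q := by ring
  have nx : ∀ t, Adm η t → ‖t.1 * t.2.1‖ = 1 := by
    intro t ht
    rw [norm_mul, ht.1, ht.2.1, one_mul]
  have nQ : ‖(Q : ℂ)‖ = Q := by rw [Complex.norm_real, Real.norm_of_nonneg hQ.le]
  -- `v / N²`
  have vN : ∀ t p, Adm η t → Near (16 / η ^ 3) Q p → ‖v Q t / N Q t p ^ 2‖ ≤ 16 / η ^ 5 * Q := by
    intro t p ht hp
    obtain ⟨-, -, -, -, -, -, b7, -⟩ := B t p ht hp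
    have h := div_le' h0 (div_le' h0 (v_le t ht) b7) b7
    have e : v Q t / N Q t p ^ 2 = v Q t / N Q t p / N Q t p := by rw [sq, div_div]
    rw [e]
    refine h.trans (le_of_eq ?_)
    field_simp
    norm_num
  -- the bracket `Q - v XY / N`
  have br : ∀ t p, Adm η t → Near (16 / η ^ 3) Q p →
      ‖v Q t * (X t p * Y t p) / N Q t p‖ ≤ 36 / η ^ 3 * Q := by
    intro t p ht hp
    obtain ⟨-, -, -, -, b5, b6, b7, -⟩ := B t p ht hp
    have h9 : ‖v Q t * (X t p * Y t p)‖ ≤ 1 / η * Q * 9 := by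
      rw [norm_mul, norm_mul]
      have : ‖X t p‖ * ‖Y t p‖ ≤ 3 * 3 := by gcongr
      have := v_le t ht
      gcongr
      linarith
    refine (div_le' h0 h9 b7).trans (le_of_eq ?_)
    field_simp
    norm_num
  have Q3 : Q ≤ 1 / η ^ 3 * Q := by
    have : 1 ≤ 1 / η ^ 3 := by
      rw [le_div_iff₀ (by positivity), one_mul]
      exact pow_le_one₀ h0.le h1
    nlinarith
  have k10 : ∀ t p, Adm η t → Near (16 / η ^ 3) Q p → ∀ W : ℝ, ‖X t p * Y t p‖ ≤ W →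
      ‖K Q t p 1 0‖ ≤ 592 / η ^ 8 * Q ^ 2 * W := by
    intro t p ht hp W hW
    have hW0 : 0 ≤ W := (norm_nonneg _).trans hW
    have e : K Q t p 1 0 = v Q t / N Q t p ^ 2 *
      (X t p * Y t p * (Q - v Q t * (X t p * Y t p) / N Q t p)) := rfl
    have h2 : ‖(Q : ℂ) - v Q t * (X t p * Y t p) / N Q t p‖ ≤ 37 / η ^ 3 * Q := by
      calc _ ≤ ‖(Q : ℂ)‖ + ‖v Q t * (X t p * Y t p) / N Q t p‖ := norm_sub_le _ _
        _ ≤ 1 / η ^ 3 * Q + 36 / η ^ 3 * Q := by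
            rw [nQ]
            exact add_le_add Q3 (br t p ht hp)
        _ = _ := by ring
    rw [e, norm_mul, norm_mul]
    calc _ ≤ 16 / η ^ 5 * Q * (W * (37 / η ^ 3 * Q)) := by
          gcongr
          exact vN t p ht hp
      _ = 592 / η ^ 8 * Q ^ 2 * W := by
          field_simp
          ring
  refine
    { pos := hQ
      κ_pos := by positivity
      one_le := C1
      κ_le := cmp' 16 3 (by norm_num) (by norm_num) (by norm_num)
      v_ne := fun t ht => (v_norm h0 hQ ht).2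
      v_le := ?_
      v_wall := ?_
      N_ge := ?_
      lam_ge := ?_
      near := ?_
      lip := ?_
      stepA := ?_
      KA := ?_
      stepB := ?_
      KB := ?_
      K01 := ?_
      K10 := ?_
      K11 := ?_
      KD := ?_ }
  · -- v_le
    intro t ht
    refine (v_le t ht).trans ?_
    have := cmp' 1 1 (by norm_num) (by norm_num) (by norm_num)
    rw [pow_one] at this
    gcongr
  · -- v_wall
    intro t ht
    have h := v_wall' h0 hQ ht
    have hC : 1 / η ^ 2 ≤ 10000 / η ^ 8 := cmp' 1 2 (by norm_num) (by norm_num) (by norm_num)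
    set C := 10000 / η ^ 8 with hCdef
    have h2 : Q ^ 2 / η ^ 2 ≤ C * Q ^ 2 := by
      rw [div_eq_mul_inv, mul_comm, ← one_div]
      gcongr
    have hC0 : 0 ≤ C := le_trans (by positivity) hC
    have h3 : 0 ≤ 1 - Q / 2 + C * Q ^ 2 := by
      have : 0 ≤ C * Q ^ 2 := by positivity
      linarith
    refine (pow_le_pow_iff_left₀ (norm_nonneg _) h3 (by norm_num : (2 : ℕ) ≠ 0)).1 ?_
    have h4 : 0 ≤ C * Q ^ 2 := by positivity
    have h5 : 0 ≤ C * Q ^ 2 * (1 - Q) := mul_nonneg h4 (by linarith)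
    nlinarith [sq_nonneg Q, sq_nonneg (C * Q ^ 2)]
  · -- N_ge
    intro t p ht hp
    obtain ⟨-, -, -, -, -, -, b7, -⟩ := B t p ht hp
    refine le_trans ?_ b7
    rw [inv_div, div_le_div_iff₀ (by norm_num) (by norm_num)]
    nlinarith [pw 2 8 (by norm_num), pos 8, pos 2]
  · -- lam_ge
    intro t p ht hp
    obtain ⟨b1, b2, -, -, -, -, b7, -⟩ := B t p ht hp
    have hv0 : 0 < ‖v Q t‖ := norm_pos_iff.2 b2
    rw [norm_div, le_div_iff₀ hv0]
    have h2 : (10000 / η ^ 8 * Q)⁻¹ * ‖v Q t‖ ≤ (10000 / η ^ 8 * Q)⁻¹ * (Q / η) := by gcongr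
    refine (h2.trans ?_).trans b7
    have : (10000 / η ^ 8 * Q)⁻¹ * (Q / η) = η ^ 7 / 10000 := by
      field_simp
    rw [this, div_le_div_iff₀ (by norm_num) (by norm_num)]
    nlinarith [pw 2 7 (by norm_num), pos 7, pos 2]
  · -- near
    intro t p ht hp
    obtain ⟨b1, b2, b3, b4, b5, b6, b7, b8⟩ := B t p ht hp
    have k : ∀ Z : ℂ, ‖Z‖ ≤ 3 → ‖v Q t * Z / N Q t p‖ ≤ 16 / η ^ 3 * Q := by
      intro Z hZ
      have h3 : ‖v Q t * Z‖ ≤ 1 / η * Q * 3 := by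
        rw [norm_mul]
        have := v_le t ht
        gcongr
      refine (div_le' h0 h3 b7).trans ?_
      have : 4 / η ^ 2 * (1 / η * Q * 3) = 12 / η ^ 3 * Q := by
        field_simp
        norm_num
      rw [this]
      gcongr
      norm_num
    exact ⟨k _ b5, k _ b6⟩
  · -- lip
    intro t p q ht hp hq
    obtain ⟨b1, b2, b3, b4, b5, b6, b7, b8⟩ := B t p ht hp
    obtain ⟨-, -, -, -, c5, c6, c7, -⟩ := B t q ht hq
    have hN : N Q t p ≠ 0 := norm_pos_iff.1 (lt_of_lt_of_le (by positivity) b7)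
    have hN' : N Q t q ≠ 0 := norm_pos_iff.1 (lt_of_lt_of_le (by positivity) c7)
    set d := dist p q with hd
    have d0 : 0 ≤ d := dist_nonneg
    have hα : ‖p.1 - q.1‖ ≤ d := by
      rw [← dist_eq_norm, hd, Prod.dist_eq]; exact le_max_left _ _
    have hβ : ‖p.2 - q.2‖ ≤ d := by
      rw [← dist_eq_norm, hd, Prod.dist_eq]; exact le_max_right _ _
    have hX : ‖X t p - X t q‖ ≤ d := by
      have : X t p - X t q = t.1 * (p.1 - q.1) := by rw [X, X]; ring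
      rw [this, norm_mul, ht.1, one_mul]; exact hα
    have hY : ‖Y t p - Y t q‖ ≤ d := by
      have : Y t p - Y t q = t.2.1 * (p.2 - q.2) := by rw [Y, Y]; ring
      rw [this, norm_mul, ht.2.1, one_mul]; exact hβ
    have hNN : ‖N Q t q - N Q t p‖ ≤ 2 * d := by
      have : N Q t q - N Q t p = -((X t p - X t q) + (Y t p - Y t q)) := by rw [N, N]; ring
      rw [this, norm_neg]
      refine (norm_add_le _ _).trans ?_
      linarith
    have key : ∀ Z Z' : ℂ, ‖Z - Z'‖ ≤ d → ‖Z'‖ ≤ 3 →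
        dist (v Q t * Z / N Q t p) (v Q t * Z' / N Q t q) ≤ d / 2 := by
      intro Z Z' h2 h3
      have e : v Q t * Z / N Q t p - v Q t * Z' / N Q t q =
          v Q t * (Z - Z') / N Q t p + v Q t * (Z' * (N Q t q - N Q t p)) / N Q t p / N Q t q := by
        field_simp
        ring
      have hv := v_le t ht
      have g1 : ‖v Q t * (Z - Z') / N Q t p‖ ≤ 4 / η ^ 2 * (1 / η * Q * d) := by
        refine div_le' h0 ?_ b7
        rw [norm_mul]
        gcongr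
      have g2 : ‖v Q t * (Z' * (N Q t q - N Q t p)) / N Q t p / N Q t q‖ ≤
          4 / η ^ 2 * (4 / η ^ 2 * (1 / η * Q * (3 * (2 * d)))) := by
        refine div_le' h0 (div_le' h0 ?_ b7) c7
        rw [norm_mul, norm_mul]
        gcongr
      rw [dist_eq_norm, e]
      refine (norm_add_le _ _).trans ((add_le_add g1 g2).trans ?_)
      have e2 : 4 / η ^ 2 * (1 / η * Q * d) + 4 / η ^ 2 * (4 / η ^ 2 * (1 / η * Q * (3 * (2 * d)))) =
          (4 * η ^ 2 + 96) / η ^ 5 * Q * d := by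
        field_simp
        ring
      rw [e2]
      have h4 : (4 * η ^ 2 + 96) / η ^ 5 * Q ≤ 1 / 2 := by
        rw [div_mul_eq_mul_div, div_le_iff₀ (pos 5)]
        have h5 : η ^ 2 ≤ 1 := pow_le_one₀ h0.le h1
        have h6 : (4 * η ^ 2 + 96) * Q ≤ 100 * (η ^ 11 / 100000) := by
          have : (4 * η ^ 2 + 96) ≤ 100 := by linarith
          have := mul_le_mul this hQ'.le hQ.le (by norm_num)
          exact this
        nlinarith [pw 5 11 (by norm_num), pos 5]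
      have := mul_le_mul_of_nonneg_right h4 d0
      linarith
    rw [Prod.dist_eq]
    exact max_le (key _ _ hX c5) (key _ _ hY c6)
  · -- stepA
    intro t p ht hp ht1
    obtain ⟨b1, b2, b3, b4, b5, b6, b7, b8⟩ := B t p ht hp
    obtain ⟨d1, d2⟩ := dA t p ht hp ht1
    have hN : N Q t p ≠ 0 := norm_pos_iff.1 (lt_of_lt_of_le (by positivity) b7)
    constructor
    · have e : (step Q t p).1 - v Q t = -(v Q t * (N Q t p - X t p)) / N Q t p := by
        simp only [step]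
        field_simp
        ring
      have h2 : ‖-(v Q t * (N Q t p - X t p))‖ ≤ 1 / η * Q * (18 / η ^ 3 * Q) := by
        rw [norm_neg, norm_mul]
        have := v_le t ht
        gcongr
      rw [e]
      refine (div_le' h0 h2 b7).trans ?_
      have : 4 / η ^ 2 * (1 / η * Q * (18 / η ^ 3 * Q)) = 72 / η ^ 6 * Q ^ 2 := by
        field_simp
        norm_num
      rw [this]
      have := cmp' 72 6 (by norm_num) (by norm_num) (by norm_num)
      gcongr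
    · have e : (step Q t p).2 = v Q t * p.2 / N Q t p := by
        simp only [step]
        rw [d2]
      have h2 : ‖v Q t * p.2‖ ≤ 1 / η * Q * ‖p.2‖ := by
        rw [norm_mul]
        have := v_le t ht
        gcongr
      rw [e]
      refine (div_le' h0 h2 b7).trans ?_
      have : 4 / η ^ 2 * (1 / η * Q * ‖p.2‖) = 4 / η ^ 3 * Q * ‖p.2‖ := by
        field_simp
      rw [this]
      have := cmp' 4 3 (by norm_num) (by norm_num) (by norm_num)
      gcongr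
  · -- KA
    intro t p ht hp ht1
    obtain ⟨b1, b2, b3, b4, b5, b6, b7, b8⟩ := B t p ht hp
    obtain ⟨d1, d2⟩ := dA t p ht hp ht1
    have hN : N Q t p ≠ 0 := norm_pos_iff.1 (lt_of_lt_of_le (by positivity) b7)
    constructor
    · have e : K Q t p 0 0 - (1 + p.2) = -(p.2 * (N Q t p - X t p)) / N Q t p := by
        have : K Q t p 0 0 = 1 + X t p * Y t p / N Q t p := rfl
        rw [this, d2]
        field_simp
        ring
      have h2 : ‖-(p.2 * (N Q t p - X t p))‖ ≤ ‖p.2‖ * (18 / η ^ 3 * Q) := by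
        rw [norm_neg, norm_mul]
        gcongr
      rw [e]
      refine (div_le' h0 h2 b7).trans ?_
      have : 4 / η ^ 2 * (‖p.2‖ * (18 / η ^ 3 * Q)) = 72 / η ^ 5 * Q * ‖p.2‖ := by
        field_simp
        ring
      rw [this]
      have := cmp' 72 5 (by norm_num) (by norm_num) (by norm_num)
      gcongr
    · have h3 : ‖X t p * Y t p‖ ≤ 3 * ‖p.2‖ := by
        rw [norm_mul, d2]
        gcongr
      refine (k10 t p ht hp _ h3).trans ?_
      have : 592 / η ^ 8 * Q ^ 2 * (3 * ‖p.2‖) = 1776 / η ^ 8 * Q ^ 2 * ‖p.2‖ := by ring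
      rw [this]
      have := cmp' 1776 8 (by norm_num) (by norm_num) (by norm_num)
      gcongr
  · -- stepB
    intro t p ht hp ht1
    obtain ⟨b1, b2, b3, b4, b5, b6, b7, b8⟩ := B t p ht hp
    obtain ⟨d1, d2⟩ := dB t p ht hp ht1
    have hN : N Q t p ≠ 0 := norm_pos_iff.1 (lt_of_lt_of_le (by positivity) b7)
    constructor
    · have e : (step Q t p).2 - v Q t = -(v Q t * (N Q t p - Y t p)) / N Q t p := by
        simp only [step]
        field_simp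
        ring
      have h2 : ‖-(v Q t * (N Q t p - Y t p))‖ ≤ 1 / η * Q * (18 / η ^ 3 * Q) := by
        rw [norm_neg, norm_mul]
        have := v_le t ht
        gcongr
      rw [e]
      refine (div_le' h0 h2 b7).trans ?_
      have : 4 / η ^ 2 * (1 / η * Q * (18 / η ^ 3 * Q)) = 72 / η ^ 6 * Q ^ 2 := by
        field_simp
        norm_num
      rw [this]
      have := cmp' 72 6 (by norm_num) (by norm_num) (by norm_num)
      gcongr
    · have e : (step Q t p).1 = v Q t * p.1 / N Q t p := by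
        simp only [step]
        rw [d2]
      have h2 : ‖v Q t * p.1‖ ≤ 1 / η * Q * ‖p.1‖ := by
        rw [norm_mul]
        have := v_le t ht
        gcongr
      rw [e]
      refine (div_le' h0 h2 b7).trans ?_
      have : 4 / η ^ 2 * (1 / η * Q * ‖p.1‖) = 4 / η ^ 3 * Q * ‖p.1‖ := by
        field_simp
      rw [this]
      have := cmp' 4 3 (by norm_num) (by norm_num) (by norm_num)
      gcongr
  · -- KB
    intro t p ht hp ht1
    obtain ⟨b1, b2, b3, b4, b5, b6, b7, b8⟩ := B t p ht hp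
    obtain ⟨d1, d2⟩ := dB t p ht hp ht1
    have hN : N Q t p ≠ 0 := norm_pos_iff.1 (lt_of_lt_of_le (by positivity) b7)
    constructor
    · have e : K Q t p 0 0 - (1 + p.1) = -(p.1 * (N Q t p - Y t p)) / N Q t p := by
        have : K Q t p 0 0 = 1 + X t p * Y t p / N Q t p := rfl
        rw [this, d2]
        field_simp
        ring
      have h2 : ‖-(p.1 * (N Q t p - Y t p))‖ ≤ ‖p.1‖ * (18 / η ^ 3 * Q) := by
        rw [norm_neg, norm_mul]
        gcongr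
      rw [e]
      refine (div_le' h0 h2 b7).trans ?_
      have : 4 / η ^ 2 * (‖p.1‖ * (18 / η ^ 3 * Q)) = 72 / η ^ 5 * Q * ‖p.1‖ := by
        field_simp
        ring
      rw [this]
      have := cmp' 72 5 (by norm_num) (by norm_num) (by norm_num)
      gcongr
    · have h3 : ‖X t p * Y t p‖ ≤ 3 * ‖p.1‖ := by
        rw [norm_mul, d2, mul_comm]
        gcongr
      refine (k10 t p ht hp _ h3).trans ?_
      have : 592 / η ^ 8 * Q ^ 2 * (3 * ‖p.1‖) = 1776 / η ^ 8 * Q ^ 2 * ‖p.1‖ := by ring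
      rw [this]
      have := cmp' 1776 8 (by norm_num) (by norm_num) (by norm_num)
      gcongr
  · -- K01
    intro t p ht hp
    obtain ⟨-, -, -, -, -, -, b7, -⟩ := B t p ht hp
    have e : K Q t p 0 1 = t.1 * t.2.1 / N Q t p := rfl
    rw [e]
    refine (div_le' h0 (nx t ht).le b7).trans ?_
    rw [mul_one]
    exact cmp' 4 2 (by norm_num) (by norm_num) (by norm_num)
  · -- K10
    intro t p ht hp
    obtain ⟨-, -, -, -, b5, b6, b7, -⟩ := B t p ht hp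
    have h9 : ‖X t p * Y t p‖ ≤ 9 := by
      rw [norm_mul]
      have : ‖X t p‖ * ‖Y t p‖ ≤ 3 * 3 := by gcongr
      linarith
    refine (k10 t p ht hp _ h9).trans ?_
    have : 592 / η ^ 8 * Q ^ 2 * 9 = 5328 / η ^ 8 * Q ^ 2 := by ring
    rw [this]
    have := cmp' 5328 8 (by norm_num) (by norm_num) (by norm_num)
    gcongr
  · -- K11
    intro t p ht hp
    have e : K Q t p 1 1 = v Q t / N Q t p ^ 2 *
      (t.1 * t.2.1 * (v Q t + Q - v Q t * (X t p * Y t p) / N Q t p)) := rfl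
    have a4 : 1 / η * Q ≤ 1 / η ^ 3 * Q := by
      gcongr ?_ * Q
      apply one_div_le_one_div_of_le (by positivity)
      exact pow_le_of_le_one h0.le h1 (by norm_num)
    have h2 : ‖v Q t + (Q : ℂ) - v Q t * (X t p * Y t p) / N Q t p‖ ≤ 38 / η ^ 3 * Q := by
      calc _ ≤ ‖v Q t + (Q : ℂ)‖ + ‖v Q t * (X t p * Y t p) / N Q t p‖ := norm_sub_le _ _
        _ ≤ (‖v Q t‖ + ‖(Q : ℂ)‖) + ‖v Q t * (X t p * Y t p) / N Q t p‖ := by
            gcongr
            exact norm_add_le _ _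
        _ ≤ (1 / η ^ 3 * Q + 1 / η ^ 3 * Q) + 36 / η ^ 3 * Q := by
            rw [nQ]
            exact add_le_add (add_le_add ((v_le t ht).trans a4) Q3) (br t p ht hp)
        _ = _ := by ring
    rw [e, norm_mul, norm_mul, nx t ht, one_mul]
    calc _ ≤ 16 / η ^ 5 * Q * (38 / η ^ 3 * Q) := by
          gcongr
          exact vN t p ht hp
      _ = 608 / η ^ 8 * Q ^ 2 := by
          field_simp
          norm_num
      _ ≤ _ := by
          have := cmp' 608 8 (by norm_num) (by norm_num) (by norm_num)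
          gcongr
  · -- KD
    intro t p ht hp hx1 hy1
    obtain ⟨b1, b2, b3, b4, b5, b6, b7, b8⟩ := B t p ht hp
    have hs := sum_ge h0 ht
    have hx2 : η ≤ ‖t.1 - 1‖ := ht.2.2.2.1.resolve_left hx1
    have hy2 : η ≤ ‖t.2.1 - 1‖ := ht.2.2.2.2.1.resolve_left hy1
    have hN : N Q t p ≠ 0 := norm_pos_iff.1 (lt_of_lt_of_le (by positivity) b7)
    have hM : t.1 + t.2.1 - 2 ≠ 0 := norm_pos_iff.1 (lt_of_lt_of_le (by positivity) hs)
    have hM0 : 0 < ‖t.1 + t.2.1 - 2‖ := norm_pos_iff.2 hM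
    have hM4 : ‖t.1 + t.2.1 - 2‖ ≤ 4 := by
      have : t.1 + t.2.1 - 2 = (t.1 - 1) + (t.2.1 - 1) := by ring
      rw [this]
      refine (norm_add_le _ _).trans ?_
      have := norm_sub_one_le ht.1
      have := norm_sub_one_le ht.2.1
      linarith
    -- the main term
    have w0 : ‖(t.1 * t.2.1 - 1) / (t.1 + t.2.1 - 2)‖ ≤ 1 - η ^ 4 / 32 := by
      have h4 : 0 ≤ 1 - η ^ 4 / 32 := by
        have := pow_le_one₀ h0.le h1 (n := 4)
        linarith
      rw [norm_div, div_le_iff₀ hM0]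
      refine (pow_le_pow_iff_left₀ (norm_nonneg _) (by positivity) (by norm_num : (2 : ℕ) ≠ 0)).1 ?_
      rw [double_id ht.1 ht.2.1, mul_pow]
      have h5 : η ^ 4 ≤ ‖t.1 - 1‖ ^ 2 * ‖t.2.1 - 1‖ ^ 2 := by
        calc η ^ 4 = η ^ 2 * η ^ 2 := by ring
          _ ≤ _ := by gcongr
      have h6 : ‖t.1 + t.2.1 - 2‖ ^ 2 ≤ 16 := by
        calc ‖t.1 + t.2.1 - 2‖ ^ 2 ≤ 4 ^ 2 := by gcongr
          _ = 16 := by norm_num
      have h7 : η ^ 4 / 16 * ‖t.1 + t.2.1 - 2‖ ^ 2 ≤ η ^ 4 := by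
        have := mul_le_mul_of_nonneg_left h6 (by positivity : 0 ≤ η ^ 4 / 16)
        linarith
      nlinarith [sq_nonneg (η ^ 4 / 32 * ‖t.1 + t.2.1 - 2‖)]
    -- the difference
    have e : K Q t p 0 0 = (t.1 * t.2.1 - 1) / (t.1 + t.2.1 - 2) +
        ((t.1 * p.1 * Y t p + (t.1 - 1) * (t.2.1 * p.2)) / N Q t p +
        (t.1 - 1) * (t.2.1 - 1) * (t.1 + t.2.1 - 2 - N Q t p) / N Q t p / (t.1 + t.2.1 - 2)) := by
      have e1 : K Q t p 0 0 = 1 + X t p * Y t p / N Q t p := rfl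
      have e2 : X t p * Y t p = (t.1 - 1) * (t.2.1 - 1) +
          (t.1 * p.1 * Y t p + (t.1 - 1) * (t.2.1 * p.2)) := by
        rw [X, Y]; ring
      rw [e1, e2]
      field_simp
      ring
    have k1 : 16 / η ^ 3 * Q * 5 = 80 / η ^ 3 * Q := by ring
    have g1 : ‖(t.1 * p.1 * Y t p + (t.1 - 1) * (t.2.1 * p.2)) / N Q t p‖ ≤
        4 / η ^ 2 * (80 / η ^ 3 * Q) := by
      refine div_le' h0 ?_ b7
      refine (norm_add_le _ _).trans ?_
      rw [norm_mul, norm_mul, ht.1, one_mul, norm_mul, norm_mul, ht.2.1, one_mul]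
      have h8 : ‖p.1‖ * ‖Y t p‖ ≤ 16 / η ^ 3 * Q * 3 := by
        gcongr
        exact hp.1
      have h9 : ‖t.1 - 1‖ * ‖p.2‖ ≤ 2 * (16 / η ^ 3 * Q) := by
        gcongr
        · exact norm_sub_one_le ht.1
        · exact hp.2
      linarith
    have g2 : ‖(t.1 - 1) * (t.2.1 - 1) * (t.1 + t.2.1 - 2 - N Q t p) / N Q t p /
        (t.1 + t.2.1 - 2)‖ ≤ 2 / η ^ 2 * (4 / η ^ 2 * (4 * (34 / η ^ 3 * Q))) := by
      have h8 : ‖(t.1 - 1) * (t.2.1 - 1) * (t.1 + t.2.1 - 2 - N Q t p) / N Q t p‖ ≤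
          4 / η ^ 2 * (4 * (34 / η ^ 3 * Q)) := by
        refine div_le' h0 ?_ b7
        rw [norm_mul, norm_mul, norm_sub_rev (t.1 + t.2.1 - 2)]
        have h9 : ‖t.1 - 1‖ * ‖t.2.1 - 1‖ ≤ 2 * 2 := by
          gcongr
          · exact norm_sub_one_le ht.1
          · exact norm_sub_one_le ht.2.1
        gcongr
        linarith
      rw [norm_div, div_le_iff₀ hM0]
      have h10 : 2 / η ^ 2 * (4 / η ^ 2 * (4 * (34 / η ^ 3 * Q))) * (η ^ 2 / 2) =
          4 / η ^ 2 * (4 * (34 / η ^ 3 * Q)) := by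
        field_simp
      have h11 : 2 / η ^ 2 * (4 / η ^ 2 * (4 * (34 / η ^ 3 * Q))) * (η ^ 2 / 2) ≤
          2 / η ^ 2 * (4 / η ^ 2 * (4 * (34 / η ^ 3 * Q))) * ‖t.1 + t.2.1 - 2‖ := by
        gcongr
      linarith
    have g3 : 4 / η ^ 2 * (80 / η ^ 3 * Q) + 2 / η ^ 2 * (4 / η ^ 2 * (4 * (34 / η ^ 3 * Q))) ≤
        η ^ 4 / 64 := by
      have e3 : 4 / η ^ 2 * (80 / η ^ 3 * Q) + 2 / η ^ 2 * (4 / η ^ 2 * (4 * (34 / η ^ 3 * Q))) =
          (320 * η ^ 2 + 1088) / η ^ 7 * Q := by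
        field_simp
        ring
      rw [e3, div_mul_eq_mul_div, div_le_iff₀ (pos 7)]
      have h5 : η ^ 2 ≤ 1 := pow_le_one₀ h0.le h1
      have h6 : (320 * η ^ 2 + 1088) * Q ≤ 1408 * (η ^ 11 / 100000) := by
        have : (320 * η ^ 2 + 1088) ≤ 1408 := by linarith
        exact mul_le_mul this hQ'.le hQ.le (by norm_num)
      have h7 : η ^ 4 / 64 * η ^ 7 = η ^ 11 / 64 := by ring
      rw [h7]
      have := pos 11
      linarith
    rw [e]
    refine (norm_add_le _ _).trans ?_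
    have h12 : ‖(t.1 * p.1 * Y t p + (t.1 - 1) * (t.2.1 * p.2)) / N Q t p +
        (t.1 - 1) * (t.2.1 - 1) * (t.1 + t.2.1 - 2 - N Q t p) / N Q t p / (t.1 + t.2.1 - 2)‖ ≤
        η ^ 4 / 64 := (norm_add_le _ _).trans ((add_le_add g1 g2).trans g3)
    have h13 : (10000 / η ^ 8)⁻¹ ≤ η ^ 4 / 64 := by
      rw [inv_div, div_le_div_iff₀ (by norm_num) (by norm_num)]
      nlinarith [pw 4 8 (by norm_num), pos 8, pos 4]
    linarith

end Pool.Agent.FB.U4
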